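import Mathlib

set_option autoImplicit false

namespace Pool.Agent.Lib.Common.Forcing

/-- First-order formulas of the language of set theory, with de Bruijn variables. -/
inductive Fm : Type
  | mem : ℕ → ℕ → Fm
  | eq : ℕ → ℕ → Fm
  | bot : Fm
  | imp : Fm → Fm → Fm
  | all : Fm → Fm

/-- Satisfaction in the structure `(M, ∈)`; variable `i` denotes the `i`-th entry of the list
(the empty set if the list is too short), and `all` binds variable `0`. -/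
def Sat (M : ZFSet.{0}) : Fm → List ZFSet.{0} → Prop
  | .mem i j, e => e.getD i ∅ ∈ e.getD j ∅
  | .eq i j, e => e.getD i ∅ = e.getD j ∅
  | .bot, _ => False
  | .imp φ ψ, e => Sat M φ e → Sat M ψ e
  | .all φ, e => ∀ x ∈ M, Sat M φ (x :: e)

/-- `M` is a countable transitive model of ZFC (extensionality and foundation hold in every
transitive set; replacement is given in the form of separation plus collection). -/
structure IsCTM (M : ZFSet.{0}) : Prop where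
  countable : (M : Set ZFSet.{0}).Countable
  trans : M.IsTransitive
  pair : ∀ x ∈ M, ∀ y ∈ M, ({x, y} : ZFSet.{0}) ∈ M
  union : ∀ x ∈ M, (ZFSet.sUnion x) ∈ M
  inf : ZFSet.omega ∈ M
  power : ∀ x ∈ M, ∃ y ∈ M, ∀ z ∈ M, z ⊆ x → z ∈ y
  sep : ∀ (φ : Fm) (e : List ZFSet.{0}), (∀ z ∈ e, z ∈ M) → ∀ a ∈ M,
    ∃ b ∈ M, ∀ x, x ∈ b ↔ x ∈ a ∧ Sat M φ (x :: e)
  coll : ∀ (φ : Fm) (e : List ZFSet.{0}), (∀ z ∈ e, z ∈ M) → ∀ a ∈ M,
    (∀ x ∈ a, ∃ y ∈ M, Sat M φ (y :: x :: e)) →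
    ∃ b ∈ M, ∀ x ∈ a, ∃ y ∈ b, Sat M φ (y :: x :: e)
  choice : ∀ a ∈ M, (∀ x ∈ a, ∃ y, y ∈ x) →
    (∀ x ∈ a, ∀ x' ∈ a, ∀ y, y ∈ x → y ∈ x' → x = x') →
    ∃ c ∈ M, ∀ x ∈ a, ∃! y, y ∈ x ∧ y ∈ c

end Pool.Agent.Lib.Common.Forcing
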