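import Mathlib
import Pool.Agent.Lib.Common.Forcing.Defs

/-!
Names over the whole universe and the forcing relation for a preorder `P`.
-/

set_option autoImplicit false

namespace Pool.Agent.Lib.Common.Forcing

/-- `P`-names: a small family of names, each with a set of conditions. -/
inductive Name (P : Type) : Type 1
  | mk (ι : Type) (A : ι → Name P) (c : ι → P → Prop) : Name P

variable {P : Type} [Preorder P]

namespace Name

def ι : Name P → Type | ⟨ι, _, _⟩ => ι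
def A : (τ : Name P) → τ.ι → Name P | ⟨_, A, _⟩ => A
def c : (τ : Name P) → τ.ι → P → Prop | ⟨_, _, c⟩ => c

/-- The child `i` is active below the condition. -/
def act (τ : Name P) (i : τ.ι) (r : P) : Prop := ∃ s, r ≤ s ∧ τ.c i s

theorem act.mono {τ : Name P} {i : τ.ι} {p q : P} (h : τ.act i p) (hq : q ≤ p) : τ.act i q :=
  let ⟨s, hs, hc⟩ := h; ⟨s, hq.trans hs, hc⟩

end Name

/-- The empty name. -/
def emp : Name P := ⟨Empty, Empty.elim, Empty.elim⟩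

/-- Forcing of the negation. -/
def Neg (u : P → Prop) (q : P) : Prop := ∀ r ≤ q, ¬ u r

/-- Dense below. -/
def Dn (u : P → Prop) (p : P) : Prop := ∀ q ≤ p, ∃ r ≤ q, u r

theorem Neg.mono {u : P → Prop} {p q : P} (h : Neg u p) (hq : q ≤ p) : Neg u q :=
  fun r hr => h r (hr.trans hq)

theorem Dn.mono {u : P → Prop} {p q : P} (h : Dn u p) (hq : q ≤ p) : Dn u q :=
  fun r hr => h r (hr.trans hq)

theorem Neg.reg {u : P → Prop} (hu : ∀ p q, u p → q ≤ p → u q) {p : P} (h : Dn (Neg u) p) :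
    Neg u p := fun r hr hur =>
  let ⟨s, hs, hn⟩ := h r hr; hn s le_rfl (hu r s hur hs)

theorem Dn.reg {u : P → Prop} {p : P} (h : Dn (Dn u) p) : Dn u p := fun q hq =>
  let ⟨r, hr, h'⟩ := h q hq
  let ⟨s, hs, hu⟩ := h' r le_rfl
  ⟨s, hs.trans hr, hu⟩

theorem exists_decide (u : P → Prop) (p : P) : ∃ q ≤ p, u q ∨ Neg u q := by
  by_cases h : Neg u p
  · exact ⟨p, le_rfl, Or.inr h⟩
  · simp only [Neg, not_forall, not_not] at h
    obtain ⟨r, hr, hu⟩ := h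
    exact ⟨r, hr, Or.inl hu⟩

theorem exists_neg_of_not {u : P → Prop} {p : P} (hreg : Dn u p → u p) (h : ¬ u p) :
    ∃ q ≤ p, Neg u q := by
  by_contra hc
  apply h (hreg fun q hq => ?_)
  by_contra hq'
  exact hc ⟨q, hq, fun r hr hu => hq' ⟨r, hr, hu⟩⟩

theorem dn_of_not_neg {u : P → Prop} {p : P} (h : ∀ q ≤ p, ¬ Neg u q) : Dn u p := by
  intro q hq
  by_contra hc
  exact h q hq fun r hr hu => hc ⟨r, hr, hu⟩

/-- Forcing of equality. -/
def Feq : Name P → Name P → P → Prop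
  | ⟨_, A, c⟩, ⟨_, A', c'⟩, p =>
    (∀ i, ∀ q ≤ p, (∃ s, q ≤ s ∧ c i s) →
      ∃ r ≤ q, ∃ j, (∃ s, r ≤ s ∧ c' j s) ∧ Feq (A i) (A' j) r) ∧
    (∀ j, ∀ q ≤ p, (∃ s, q ≤ s ∧ c' j s) →
      ∃ r ≤ q, ∃ i, (∃ s, r ≤ s ∧ c i s) ∧ Feq (A i) (A' j) r)

theorem feq_iff {σ τ : Name P} {p : P} : Feq σ τ p ↔
    (∀ i, ∀ q ≤ p, σ.act i q → ∃ r ≤ q, ∃ j, τ.act j r ∧ Feq (σ.A i) (τ.A j) r) ∧
    (∀ j, ∀ q ≤ p, τ.act j q → ∃ r ≤ q, ∃ i, σ.act i r ∧ Feq (σ.A i) (τ.A j) r) := by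
  cases σ; cases τ; rfl

theorem Feq.mono {σ τ : Name P} {p q : P} (h : Feq σ τ p) (hq : q ≤ p) : Feq σ τ q := by
  rw [feq_iff] at h ⊢
  exact ⟨fun i r hr => h.1 i r (hr.trans hq), fun j r hr => h.2 j r (hr.trans hq)⟩

theorem Feq.reg {σ τ : Name P} {p : P} (h : Dn (Feq σ τ) p) : Feq σ τ p := by
  rw [feq_iff]
  constructor
  · intro i q hq ha
    obtain ⟨r, hr, h'⟩ := h q hq
    obtain ⟨s, hs, h''⟩ := (feq_iff.1 h').1 i r le_rfl (ha.mono hr)
    exact ⟨s, hs.trans hr, h''⟩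
  · intro i q hq ha
    obtain ⟨r, hr, h'⟩ := h q hq
    obtain ⟨s, hs, h''⟩ := (feq_iff.1 h').2 i r le_rfl (ha.mono hr)
    exact ⟨s, hs.trans hr, h''⟩

theorem Feq.refl (σ : Name P) (p : P) : Feq σ σ p := by
  induction σ generalizing p with
  | mk ι A c ih =>
    exact ⟨fun i q _ h => ⟨q, le_rfl, i, h, ih i q⟩, fun i q _ h => ⟨q, le_rfl, i, h, ih i q⟩⟩

theorem Feq.symm {σ τ : Name P} {p : P} (h : Feq σ τ p) : Feq τ σ p := by
  induction σ generalizing τ p with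
  | mk ι A c ih =>
    rw [feq_iff] at h ⊢
    constructor
    · intro j q hq ha
      obtain ⟨r, hr, i, hi, h'⟩ := h.2 j q hq ha
      exact ⟨r, hr, i, hi, ih i h'⟩
    · intro i q hq ha
      obtain ⟨r, hr, j, hj, h'⟩ := h.1 i q hq ha
      exact ⟨r, hr, j, hj, ih i h'⟩

theorem Feq.trans {σ τ ρ : Name P} {p : P} (h1 : Feq σ τ p) (h2 : Feq τ ρ p) : Feq σ ρ p := by
  induction σ generalizing τ ρ p with
  | mk ι A c ih =>
    rw [feq_iff] at h1 h2 ⊢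
    constructor
    · intro i q hq ha
      obtain ⟨r, hr, j, hj, h'⟩ := h1.1 i q hq ha
      obtain ⟨s, hs, k, hk, h''⟩ := h2.1 j r (hr.trans hq) hj
      exact ⟨s, hs.trans hr, k, hk, ih i (h'.mono hs) h''⟩
    · intro k q hq ha
      obtain ⟨r, hr, j, hj, h'⟩ := h2.2 k q hq ha
      obtain ⟨s, hs, i, hi, h''⟩ := h1.2 j r (hr.trans hq) hj
      exact ⟨s, hs.trans hr, i, hi, ih i h'' (h'.mono hs)⟩

/-- Forcing of membership. -/
def Fmem (σ τ : Name P) (p : P) : Prop :=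
  ∀ q ≤ p, ∃ r ≤ q, ∃ i, τ.act i r ∧ Feq σ (τ.A i) r

theorem Fmem.mono {σ τ : Name P} {p q : P} (h : Fmem σ τ p) (hq : q ≤ p) : Fmem σ τ q :=
  fun r hr => h r (hr.trans hq)

theorem Fmem.reg {σ τ : Name P} {p : P} (h : Dn (Fmem σ τ) p) : Fmem σ τ p := fun q hq =>
  let ⟨r, hr, h'⟩ := h q hq
  let ⟨s, hs, h''⟩ := h' r le_rfl
  ⟨s, hs.trans hr, h''⟩

theorem Fmem.of_act {σ τ : Name P} {p : P} (i : τ.ι) (ha : τ.act i p) (h : Feq σ (τ.A i) p) :
    Fmem σ τ p := fun q hq => ⟨q, le_rfl, i, ha.mono hq, h.mono hq⟩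

theorem Fmem.intro {σ : Name P} {ι : Type} {A : ι → Name P} {c : ι → P → Prop} {p : P} (i : ι)
    (hc : c i p) (h : Feq σ (A i) p) : Fmem σ ⟨ι, A, c⟩ p :=
  Fmem.of_act (τ := ⟨ι, A, c⟩) i ⟨p, le_rfl, hc⟩ h

theorem Fmem.elim {σ : Name P} {ι : Type} {A : ι → Name P} {c : ι → P → Prop} {p q : P}
    (hc : ∀ i s r, c i s → r ≤ s → c i r) (h : Fmem σ ⟨ι, A, c⟩ p) (hq : q ≤ p) :
    ∃ r ≤ q, ∃ i, c i r ∧ Feq σ (A i) r :=
  let ⟨r, hr, i, ⟨s, hs, hi⟩, h'⟩ := h q hq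
  ⟨r, hr, i, hc i s r hi hs, h'⟩

theorem Fmem.congr_left {σ σ' τ : Name P} {p : P} (h : Fmem σ τ p) (h' : Feq σ σ' p) :
    Fmem σ' τ p := fun q hq =>
  let ⟨r, hr, i, hi, h''⟩ := h q hq
  ⟨r, hr, i, hi, (h'.mono (hr.trans hq)).symm.trans h''⟩

theorem Fmem.congr_right {σ τ τ' : Name P} {p : P} (h : Fmem σ τ p) (h' : Feq τ τ' p) :
    Fmem σ τ' p := fun q hq =>
  let ⟨r, hr, i, hi, h''⟩ := h q hq
  let ⟨s, hs, j, hj, h3⟩ := (feq_iff.1 h').1 i r (hr.trans hq) hi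
  ⟨s, hs.trans hr, j, hj, (h''.mono hs).trans h3⟩

/-- Forcing of inclusion. -/
def Fsub (σ τ : Name P) (p : P) : Prop := ∀ ρ, ∀ q ≤ p, Fmem ρ σ q → Fmem ρ τ q

theorem Fsub.mono {σ τ : Name P} {p q : P} (h : Fsub σ τ p) (hq : q ≤ p) : Fsub σ τ q :=
  fun ρ r hr => h ρ r (hr.trans hq)

theorem Fsub.reg {σ τ : Name P} {p : P} (h : Dn (Fsub σ τ) p) : Fsub σ τ p :=
  fun ρ q hq hm => Fmem.reg fun r hr =>
    let ⟨s, hs, h'⟩ := h r (hr.trans hq)
    ⟨s, hs, h' ρ s le_rfl (hm.mono (hs.trans hr))⟩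

theorem Feq.fsub {σ τ : Name P} {p : P} (h : Feq σ τ p) : Fsub σ τ p :=
  fun _ _ hq hm => hm.congr_right (h.mono hq)

theorem Fsub.trans {σ τ ρ : Name P} {p : P} (h1 : Fsub σ τ p) (h2 : Fsub τ ρ p) : Fsub σ ρ p :=
  fun η q hq hm => h2 η q hq (h1 η q hq hm)

theorem fsub_of_act {σ τ : Name P} {p : P}
    (h : ∀ i, ∀ q ≤ p, σ.act i q → Fmem (σ.A i) τ q) : Fsub σ τ p :=
  fun _ q hq hm => Fmem.reg fun r hr =>
    let ⟨s, hs, i, hi, h'⟩ := hm r hr
    ⟨s, hs, (h i s (hs.trans (hr.trans hq)) hi).congr_left h'.symm⟩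

theorem Feq.ext {σ τ : Name P} {p : P} (h1 : Fsub σ τ p) (h2 : Fsub τ σ p) : Feq σ τ p := by
  rw [feq_iff]
  constructor
  · intro i q hq ha
    exact h1 _ q hq (Fmem.of_act i ha (Feq.refl _ _)) q le_rfl
  · intro j q hq ha
    obtain ⟨r, hr, i, hi, h⟩ := h2 _ q hq (Fmem.of_act j ha (Feq.refl _ _)) q le_rfl
    exact ⟨r, hr, i, hi, h.symm⟩

theorem not_fmem_emp (σ : Name P) (p : P) : ¬ Fmem σ emp p := fun h =>
  let ⟨_, _, i, _⟩ := h p le_rfl
  Empty.elim i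

/-- The forcing relation. -/
def Force : Fm → List (Name P) → P → Prop
  | .mem i j, e, p => Fmem (e.getD i emp) (e.getD j emp) p
  | .eq i j, e, p => Feq (e.getD i emp) (e.getD j emp) p
  | .bot, _, _ => False
  | .imp φ ψ, e, p => ∀ q ≤ p, Force φ e q → Force ψ e q
  | .all φ, e, p => ∀ σ, Force φ (σ :: e) p

theorem Force.mono {φ : Fm} {e : List (Name P)} {p q : P} (h : Force φ e p) (hq : q ≤ p) :
    Force φ e q := by
  induction φ generalizing e with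
  | mem i j => exact Fmem.mono h hq
  | eq i j => exact Feq.mono h hq
  | bot => exact h
  | imp φ ψ _ _ => exact fun r hr => h r (hr.trans hq)
  | all φ ih => exact fun σ => ih (h σ)

theorem Force.reg {φ : Fm} {e : List (Name P)} {p : P} (h : Dn (Force φ e) p) : Force φ e p := by
  induction φ generalizing e p with
  | mem i j => exact Fmem.reg h
  | eq i j => exact Feq.reg h
  | bot => exact let ⟨_, _, h'⟩ := h p le_rfl; h'
  | imp φ ψ _ ih =>
    intro q hq hφ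
    refine ih fun r hr => ?_
    obtain ⟨s, hs, h'⟩ := h r (hr.trans hq)
    exact ⟨s, hs, h' s le_rfl (hφ.mono (hs.trans hr))⟩
  | all φ ih =>
    intro σ
    refine ih fun r hr => ?_
    obtain ⟨s, hs, h'⟩ := h r hr
    exact ⟨s, hs, h' σ⟩

theorem Force.congr {φ : Fm} {e e' : List (Name P)} {p : P}
    (he : ∀ i, Feq (e.getD i emp) (e'.getD i emp) p) (h : Force φ e p) : Force φ e' p := by
  induction φ generalizing e e' p with
  | mem i j => exact (Fmem.congr_left h (he i)).congr_right (he j)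
  | eq i j => exact (he i).symm.trans (Feq.trans h (he j))
  | bot => exact h
  | imp φ ψ ih1 ih2 =>
    intro q hq hφ
    exact ih2 (fun i => (he i).mono hq) (h q hq (ih1 (fun i => ((he i).mono hq).symm) hφ))
  | all φ ih =>
    intro σ
    refine ih (e := σ :: e) (fun i => ?_) (h σ)
    cases i with
    | zero => exact Feq.refl _ _
    | succ i => exact he i

theorem Force.congr_head {φ : Fm} {σ σ' : Name P} {e : List (Name P)} {p : P}
    (h : Force φ (σ :: e) p) (h' : Feq σ σ' p) : Force φ (σ' :: e) p := by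
  refine Force.congr (e := σ :: e) (fun i => ?_) h
  cases i with
  | zero => exact h'
  | succ i => exact Feq.refl _ _

theorem Force.congr_snd {φ : Fm} {ρ σ σ' : Name P} {e : List (Name P)} {p : P}
    (h : Force φ (ρ :: σ :: e) p) (h' : Feq σ σ' p) : Force φ (ρ :: σ' :: e) p := by
  refine Force.congr (e := ρ :: σ :: e) (fun i => ?_) h
  rcases i with _ | _ | i
  · exact Feq.refl _ _
  · exact h'
  · exact Feq.refl _ _

/-- The rank of a name. -/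
noncomputable def Name.rank : Name P → Ordinal.{0}
  | ⟨_, A, _⟩ => ⨆ i, Order.succ (A i).rank

omit [Preorder P] in
theorem Name.rank_lt (τ : Name P) (i : τ.ι) : (τ.A i).rank < τ.rank := by
  cases τ with
  | mk ι A c =>
    exact Order.succ_le_iff.1 (Ordinal.le_iSup (fun i => Order.succ (A i).rank) i)

/-- The condition forces that the rank of the value of `τ` is at most `β`. -/
def RkLe (τ : Name P) (β : Ordinal.{0}) : P → Prop :=
  Dn fun r => ∃ τ' : Name P, τ'.rank ≤ β ∧ Feq τ τ' r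

/-- The condition forces that the rank of the value of `τ` is exactly `β`. -/
def Rk (τ : Name P) (β : Ordinal.{0}) (q : P) : Prop :=
  RkLe τ β q ∧ ∀ β' < β, Neg (RkLe τ β') q

theorem Rk.mono {τ : Name P} {β : Ordinal.{0}} {p q : P} (h : Rk τ β p) (hq : q ≤ p) :
    Rk τ β q := ⟨Dn.mono h.1 hq, fun β' hβ => (h.2 β' hβ).mono hq⟩

theorem exists_rk (τ : Name P) (p : P) : ∃ q ≤ p, ∃ β, Rk τ β q := by
  have hne : {β | ∃ q ≤ p, RkLe τ β q}.Nonempty :=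
    ⟨τ.rank, p, le_rfl, fun q _ => ⟨q, le_rfl, τ, le_rfl, Feq.refl _ _⟩⟩
  obtain ⟨β, ⟨q, hq, h⟩, hmin⟩ := wellFounded_lt.has_min _ hne
  exact ⟨q, hq, β, h, fun β' hβ r hr h' => hmin β' ⟨r, hr.trans hq, h'⟩ hβ⟩

theorem Rk.lt_of_mem {σ τ : Name P} {α β : Ordinal.{0}} {p : P} (hσ : Rk σ α p) (hτ : Rk τ β p)
    (h : Fmem σ τ p) : α < β := by
  obtain ⟨r, hr, τ', hτ', he⟩ := hτ.1 p le_rfl
  obtain ⟨s, hs, i, -, h'⟩ := ((h.mono hr).congr_right he) r le_rfl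
  by_contra hc
  refine hσ.2 (τ'.A i).rank (((τ'.rank_lt i).trans_le hτ').trans_le (not_lt.1 hc)) s
    (hs.trans hr) fun t ht => ⟨t, le_rfl, _, le_rfl, h'.mono ht⟩

theorem Rk.eq_of_feq {σ τ : Name P} {α β : Ordinal.{0}} {p : P} (hσ : Rk σ α p) (hτ : Rk τ β p)
    (h : Feq σ τ p) : α = β := by
  have key : ∀ {σ τ : Name P} {α β : Ordinal.{0}}, Rk σ α p → Rk τ β p → Feq σ τ p → α ≤ β := by
    intro σ τ α β hσ hτ h
    by_contra hc
    refine hσ.2 β (not_le.1 hc) p le_rfl fun q hq => ?_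
    obtain ⟨r, hr, τ', h1, h2⟩ := hτ.1 q hq
    exact ⟨r, hr, τ', h1, (h.mono (hr.trans hq)).trans h2⟩
  exact le_antisymm (key hσ hτ h) (key hτ hσ h.symm)

end Pool.Agent.Lib.Common.Forcing
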