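import Mathlib
import Pool.Agent.Lib.Common.Forcing.Names

/-!
Names for the basic set operations.
-/

set_option autoImplicit false

namespace Pool.Agent.Lib.Common.Forcing

variable {P : Type} [Preorder P]

/-- A name all of whose children are always active. -/
def fam {ι : Type} (A : ι → Name P) : Name P := ⟨ι, A, fun _ _ => True⟩

theorem fmem_fam {ι : Type} {A : ι → Name P} {ρ : Name P} {p : P} (i : ι) (h : Feq ρ (A i) p) :
    Fmem ρ (fam A) p := Fmem.intro i trivial h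

theorem fmem_fam_self {ι : Type} (A : ι → Name P) (i : ι) (p : P) : Fmem (A i) (fam A) p :=
  fmem_fam i (Feq.refl _ _)

theorem Fmem.fam_elim {ι : Type} {A : ι → Name P} {ρ : Name P} {p q : P}
    (h : Fmem ρ (fam A) p) (hq : q ≤ p) : ∃ r ≤ q, ∃ i, Feq ρ (A i) r :=
  let ⟨r, hr, i, _, h'⟩ := h q hq
  ⟨r, hr, i, h'⟩

theorem feq_fam {ι : Type} {A A' : ι → Name P} {p : P} (h : ∀ i, Feq (A i) (A' i) p) :
    Feq (fam A) (fam A') p :=
  ⟨fun i q hq ha => ⟨q, le_rfl, i, ha, (h i).mono hq⟩,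
    fun i q hq ha => ⟨q, le_rfl, i, ha, (h i).mono hq⟩⟩

/-- Unordered pair. -/
def upair (σ τ : Name P) : Name P := fam fun b : Bool => cond b σ τ

/-- Ordered pair. -/
def op (σ τ : Name P) : Name P := upair (upair σ σ) (upair σ τ)

theorem feq_upair {σ σ' τ τ' : Name P} {p : P} (h1 : Feq σ σ' p) (h2 : Feq τ τ' p) :
    Feq (upair σ τ) (upair σ' τ') p := feq_fam fun b => by cases b <;> assumption

theorem feq_op {σ σ' τ τ' : Name P} {p : P} (h1 : Feq σ σ' p) (h2 : Feq τ τ' p) :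
    Feq (op σ τ) (op σ' τ') p := feq_upair (feq_upair h1 h1) (feq_upair h1 h2)

/-- Union. -/
def un (τ : Name P) : Name P :=
  ⟨Σ i : τ.ι, (τ.A i).ι, fun j => (τ.A j.1).A j.2,
    fun j q => τ.act j.1 q ∧ (τ.A j.1).act j.2 q⟩

theorem fmem_un {η ρ τ : Name P} {p : P} (h1 : Fmem η ρ p) (h2 : Fmem ρ τ p) :
    Fmem η (un τ) p := Fmem.reg fun q hq => by
  obtain ⟨r, hr, i, hi, h⟩ := h2 q hq
  obtain ⟨s, hs, k, hk, h'⟩ := ((h1.mono (hr.trans hq)).congr_right h) r le_rfl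
  exact ⟨s, hs.trans hr, Fmem.intro (⟨i, k⟩ : Σ i : τ.ι, (τ.A i).ι) ⟨hi.mono hs, hk⟩ h'⟩

theorem Fmem.un_elim {η τ : Name P} {p q : P} (h : Fmem η (un τ) p) (hq : q ≤ p) :
    ∃ r ≤ q, ∃ ρ, Fmem η ρ r ∧ Fmem ρ τ r := by
  obtain ⟨r, hr, j, hj, h'⟩ := Fmem.elim
    (fun j s r (h : τ.act j.1 s ∧ (τ.A j.1).act j.2 s) hr => ⟨h.1.mono hr, h.2.mono hr⟩) h hq
  exact ⟨r, hr, τ.A j.1, Fmem.of_act j.2 hj.2 h', Fmem.of_act j.1 hj.1 (Feq.refl _ _)⟩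

/-- Power set. -/
def pow (τ : Name P) : Name P := fam fun S : τ.ι → P → Prop => ⟨τ.ι, τ.A, S⟩

theorem fmem_pow {ρ τ : Name P} {p : P} (h : Fsub ρ τ p) : Fmem ρ (pow τ) p := by
  refine fmem_fam (fun i q => Fmem (τ.A i) ρ q) (Feq.ext ?_ ?_)
  · intro η q hq hm
    refine Fmem.reg fun r hr => ?_
    obtain ⟨s, hs, i, -, h'⟩ := h η q hq hm r hr
    exact ⟨s, hs, Fmem.intro i ((hm.mono (hs.trans hr)).congr_left h') h'⟩
  · refine fsub_of_act fun i q _ ha => ?_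
    obtain ⟨s, hs, h'⟩ := ha
    exact Fmem.mono h' hs

/-- Separation. -/
def sepN (φ : Fm) (τ : Name P) (l : List (Name P)) : Name P :=
  ⟨τ.ι, τ.A, fun i q => τ.act i q ∧ Force φ (τ.A i :: l) q⟩

theorem fmem_sepN {φ : Fm} {τ ρ : Name P} {l : List (Name P)} {p : P} :
    Fmem ρ (sepN φ τ l) p ↔ Fmem ρ τ p ∧ Force φ (ρ :: l) p := by
  constructor
  · intro h
    have h' := fun q (hq : q ≤ p) => Fmem.elim
      (fun i s r (h : τ.act i s ∧ Force φ (τ.A i :: l) s) hr => ⟨h.1.mono hr, h.2.mono hr⟩) h hq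
    refine ⟨fun q hq => ?_, Force.reg fun q hq => ?_⟩
    · obtain ⟨r, hr, i, hi, he⟩ := h' q hq
      exact ⟨r, hr, i, hi.1, he⟩
    · obtain ⟨r, hr, i, hi, he⟩ := h' q hq
      exact ⟨r, hr, hi.2.congr_head he.symm⟩
  · rintro ⟨h1, h2⟩
    refine Fmem.reg fun q hq => ?_
    obtain ⟨r, hr, i, hi, he⟩ := h1 q hq
    exact ⟨r, hr, Fmem.intro i ⟨hi, (h2.mono (hr.trans hq)).congr_head he⟩ he⟩

open Classical in
/-- Collection. -/
noncomputable def collN (φ : Fm) (τ : Name P) (l : List (Name P)) : Name P :=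
  fam fun x : τ.ι × P => if h : ∃ σ, Force φ (σ :: τ.A x.1 :: l) x.2 then h.choose else emp

theorem collN_spec {φ : Fm} {τ ρ η : Name P} {l : List (Name P)} {p : P} (h1 : Fmem ρ τ p)
    (h2 : Force φ (η :: ρ :: l) p) :
    ∃ r ≤ p, ∃ σ, Fmem σ (collN φ τ l) r ∧ Force φ (σ :: ρ :: l) r := by
  obtain ⟨r, hr, i, -, he⟩ := h1 p le_rfl
  have h : ∃ σ, Force φ (σ :: τ.A i :: l) r := ⟨η, (h2.mono hr).congr_snd he⟩
  refine ⟨r, hr, h.choose, fmem_fam (i, r) ?_, h.choose_spec.congr_snd he.symm⟩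
  simp only [dif_pos h]
  exact Feq.refl _ _

/-- A choice set. -/
def chN (τ : Name P) : Name P :=
  ⟨Σ i : τ.ι, (τ.A i).ι, fun j => (τ.A j.1).A j.2,
    fun j q => ∃ i, τ.act i q ∧ Fmem ((τ.A j.1).A j.2) (τ.A i) q ∧
      ∀ j' : Σ i : τ.ι, (τ.A i).ι, WellOrderingRel j' j →
        Neg (Fmem ((τ.A j'.1).A j'.2) (τ.A i)) q⟩

theorem chN_exists {τ ρ η : Name P} {p : P} (h1 : Fmem ρ τ p) (h2 : Fmem η ρ p) :
    ∃ r ≤ p, ∃ σ, Fmem σ ρ r ∧ Fmem σ (chN τ) r := by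
  obtain ⟨r, hr, i, hi, he⟩ := h1 p le_rfl
  obtain ⟨s, hs, k, hk, -⟩ := ((h2.mono hr).congr_right he) r le_rfl
  have hne : {j : Σ i : τ.ι, (τ.A i).ι | ∃ t ≤ r, Fmem ((τ.A j.1).A j.2) (τ.A i) t}.Nonempty :=
    ⟨⟨i, k⟩, s, hs, Fmem.of_act k hk (Feq.refl _ _)⟩
  obtain ⟨j, ⟨t, ht, hj⟩, hmin⟩ :=
    (WellOrderingRel.isWellOrder (α := Σ i : τ.ι, (τ.A i).ι)).wf.has_min _ hne
  refine ⟨t, ht.trans hr, (τ.A j.1).A j.2, hj.congr_right (he.mono ht).symm,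
    Fmem.intro j ⟨i, hi.mono ht, hj, fun j' hj' u hu h => hmin j' ⟨u, hu.trans ht, h⟩ hj'⟩
      (Feq.refl _ _)⟩

theorem chN_unique {τ ρ η η' : Name P} {p : P}
    (hd : ∀ u v w, ∀ q ≤ p, Fmem u τ q → Fmem v τ q → Fmem w u q → Fmem w v q → Feq u v q)
    (h0 : Fmem ρ τ p) (h1 : Fmem η ρ p) (h2 : Fmem η' ρ p) (h3 : Fmem η (chN τ) p)
    (h4 : Fmem η' (chN τ) p) : Feq η η' p := by
  have hmono : ∀ (j : Σ i : τ.ι, (τ.A i).ι) (s r : P),
      (∃ i, τ.act i s ∧ Fmem ((τ.A j.1).A j.2) (τ.A i) s ∧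
        ∀ j' : Σ i : τ.ι, (τ.A i).ι, WellOrderingRel j' j →
          Neg (Fmem ((τ.A j'.1).A j'.2) (τ.A i)) s) → r ≤ s →
      (∃ i, τ.act i r ∧ Fmem ((τ.A j.1).A j.2) (τ.A i) r ∧
        ∀ j' : Σ i : τ.ι, (τ.A i).ι, WellOrderingRel j' j →
          Neg (Fmem ((τ.A j'.1).A j'.2) (τ.A i)) r) := by
    rintro j s r ⟨i, a, b, c⟩ hr
    exact ⟨i, a.mono hr, b.mono hr, fun j' hj' => (c j' hj').mono hr⟩
  refine Feq.reg fun q hq => ?_
  obtain ⟨r, hr, j, ⟨i, a, b, c⟩, he⟩ := Fmem.elim hmono h3 hq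
  obtain ⟨s, hs, j', ⟨i', a', b', c'⟩, he'⟩ := Fmem.elim hmono h4 (hr.trans hq)
  have hsp : s ≤ p := hs.trans (hr.trans hq)
  have e1 : Feq (τ.A i) ρ s := hd _ _ η s hsp (Fmem.of_act i (a.mono hs) (Feq.refl _ _))
    (h0.mono hsp) ((b.mono hs).congr_left (he.mono hs).symm) (h1.mono hsp)
  have e2 : Feq (τ.A i') ρ s := hd _ _ η' s hsp (Fmem.of_act i' a' (Feq.refl _ _))
    (h0.mono hsp) (b'.congr_left he'.symm) (h2.mono hsp)
  refine ⟨s, hs.trans hr, ?_⟩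
  rcases trichotomous_of WellOrderingRel j j' with h | h | h
  · exact absurd ((b.mono hs).congr_right (e1.trans e2.symm)) (c' j h s le_rfl)
  · subst h
    exact (he.mono hs).trans he'.symm
  · exact absurd (b'.congr_right (e2.trans e1.symm)) (c j' h s hs)

/-- The canonical name of an ordinal. -/
noncomputable def oc (o : Ordinal.{0}) : Name P :=
  fam fun a : o.ToType => oc a
termination_by o
decreasing_by exact a.toOrd.prop

omit [Preorder P] in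
theorem oc_eq (o : Ordinal.{0}) : (oc o : Name P) = fam fun a : o.ToType => oc a := by
  rw [oc]

theorem fmem_oc_of_lt {a b : Ordinal.{0}} (h : a < b) (p : P) : Fmem (oc a) (oc b) p := by
  rw [oc_eq b]
  refine fmem_fam (Ordinal.ToType.mk ⟨a, h⟩) ?_
  simp only [Ordinal.ToType.toOrd, OrderIso.symm_apply_apply]
  exact Feq.refl _ _

theorem Fmem.oc_elim {ρ : Name P} {b : Ordinal.{0}} {p q : P} (h : Fmem ρ (oc b) p)
    (hq : q ≤ p) : ∃ r ≤ q, ∃ a < b, Feq ρ (oc a) r := by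
  rw [oc_eq b] at h
  obtain ⟨r, hr, i, h'⟩ := h.fam_elim hq
  exact ⟨r, hr, i, i.toOrd.prop, h'⟩

theorem not_fmem_self (σ : Name P) (p : P) : ¬ Fmem σ σ p := fun h =>
  let ⟨_, hq, _, hβ⟩ := exists_rk σ p
  lt_irrefl _ (hβ.lt_of_mem hβ (h.mono hq))

theorem feq_oc_iff {a b : Ordinal.{0}} {p : P} : Feq (oc a) (oc b) p ↔ a = b := by
  refine ⟨fun h => ?_, fun h => h ▸ Feq.refl _ _⟩
  rcases lt_trichotomy a b with hab | hab | hab
  · exact absurd ((fmem_oc_of_lt hab p).congr_left h) (not_fmem_self _ _)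
  · exact hab
  · exact absurd ((fmem_oc_of_lt hab p).congr_left h.symm) (not_fmem_self _ _)

theorem fmem_oc_iff {a b : Ordinal.{0}} {p : P} : Fmem (oc a) (oc b) p ↔ a < b := by
  refine ⟨fun h => ?_, fun h => fmem_oc_of_lt h p⟩
  obtain ⟨r, -, c, hc, h'⟩ := h.oc_elim le_rfl
  rwa [feq_oc_iff.1 h']

end Pool.Agent.Lib.Common.Forcing
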