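import Mathlib
import Pool.Agent.Lib.Common.Forcing.Ops

/-!
A Henkin / Rasiowa-Sikorski construction: a countable set of names and a descending sequence of
conditions meeting countably many tasks.
-/

set_option autoImplicit false

namespace Pool.Agent.Lib.Common.Forcing

open Set Filter

variable {P : Type} [Preorder P]

/-- A task: for a list of names, a requirement on a countable set of new names and a condition. -/
abbrev Job (P : Type) := List (Name P) → Set (Name P) → P → Prop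

/-- A countable set of names and a descending sequence of conditions. -/
structure PreGen (P : Type) [Preorder P] where
  N : Set (Name P)
  h : ℕ → P
  countable : N.Countable
  anti : Antitone h

/-- The task is met or fails below some condition of the sequence. -/
def PreGen.Meets (g : PreGen P) (W : Job P) : Prop :=
  ∀ l, (∀ x ∈ l, x ∈ g.N) → ∃ n, (∃ S ⊆ g.N, W l S (g.h n)) ∨
    ∀ r ≤ g.h n, ∀ S : Set (Name P), S.Countable → ¬ W l S r

theorem exists_meets (𝒲 : Set (Job P)) (hc : 𝒲.Countable) (p0 : P) :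
    ∃ g : PreGen P, g.h 0 ≤ p0 ∧ ∀ W ∈ 𝒲, g.Meets W := by
  classical
  obtain ⟨Wf, hWf⟩ := (hc.insert (fun _ _ _ => True)).exists_eq_range (insert_nonempty _ _)
  obtain ⟨e, he⟩ := exists_surjective_nat (ℕ × List (ℕ × ℕ) × ℕ)
  have hstep : ∀ (W : Job P) (l : List (Name P)) (p : P), ∃ q ≤ p, ∃ row : ℕ → Name P,
      (∃ S ⊆ range row, W l S q) ∨ ∀ r ≤ q, ∀ S : Set (Name P), S.Countable → ¬ W l S r := by
    intro W l p
    by_cases h : ∃ r ≤ p, ∃ S : Set (Name P), S.Countable ∧ W l S r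
    · obtain ⟨r, hr, S, hS, hW⟩ := h
      obtain ⟨row, hrow⟩ := (hS.insert emp).exists_eq_range (insert_nonempty _ _)
      exact ⟨r, hr, row, Or.inl ⟨S, hrow ▸ subset_insert _ _, hW⟩⟩
    · exact ⟨p, le_rfl, fun _ => emp, Or.inr fun r hr S hS hW => h ⟨r, hr, S, hS, hW⟩⟩
  choose sq hsq srow hsrow using hstep
  let st : ℕ → P × (ℕ → ℕ → Name P) := fun n => Nat.rec (p0, fun _ _ => emp)
    (fun n s => (sq (Wf (e n).1) ((e n).2.1.map fun c => s.2 c.1 c.2) s.1,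
      Function.update s.2 n (srow (Wf (e n).1) ((e n).2.1.map fun c => s.2 c.1 c.2) s.1))) n
  have hst : ∀ n, st (n + 1) =
      (sq (Wf (e n).1) ((e n).2.1.map fun c => (st n).2 c.1 c.2) (st n).1,
      Function.update (st n).2 n
        (srow (Wf (e n).1) ((e n).2.1.map fun c => (st n).2 c.1 c.2) (st n).1)) := fun n => rfl
  let T : ℕ → ℕ → Name P := fun k => (st (k + 1)).2 k
  have hT : ∀ n k, k < n → (st n).2 k = T k := by
    intro n
    induction n with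
    | zero => intro k hk; exact absurd hk (Nat.not_lt_zero _)
    | succ n ih =>
      intro k hk
      rcases (Nat.lt_succ_iff.1 hk).lt_or_eq with h | h
      · rw [← ih k h, hst]
        exact Function.update_of_ne h.ne _ _
      · rw [h]
  refine ⟨⟨range fun c : ℕ × ℕ => T c.1 c.2, fun n => (st n).1, countable_range _,
    antitone_nat_of_succ_le fun n => ?_⟩, le_rfl, fun W hW l hl => ?_⟩
  · rw [hst]; exact hsq _ _ _
  · obtain ⟨j, rfl⟩ : W ∈ range Wf := hWf ▸ mem_insert_of_mem _ hW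
    obtain ⟨lc, rfl⟩ : ∃ lc : List (ℕ × ℕ), lc.map (fun c => T c.1 c.2) = l := by
      induction l with
      | nil => exact ⟨[], rfl⟩
      | cons x l ih =>
        obtain ⟨lc, hlc⟩ := ih fun y hy => hl y (List.mem_cons_of_mem _ hy)
        obtain ⟨c, hc⟩ := hl x List.mem_cons_self
        exact ⟨c :: lc, by rw [List.map_cons, hlc]; exact congrArg (· :: l) hc⟩
    have hinf : {n | (e n).1 = j ∧ (e n).2.1 = lc}.Infinite := by
      refine infinite_of_injective_forall_mem (f := fun m => Function.surjInv he (j, lc, m))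
        (fun a b hab => ?_) (fun m => ?_)
      · have := Function.injective_surjInv he hab
        simpa using this
      · simp only [mem_ofPred_eq, Function.surjInv_eq he, and_self]
    obtain ⟨n, ⟨hn1, hn2⟩, hn⟩ := hinf.exists_gt ((lc.map Prod.fst).sum)
    have hmap : ((e n).2.1.map fun c => (st n).2 c.1 c.2) = lc.map fun c => T c.1 c.2 := by
      rw [hn2]
      refine List.map_congr_left fun c hc => ?_
      rw [hT n c.1 (lt_of_le_of_lt (List.le_sum_of_mem (List.mem_map_of_mem hc)) hn)]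
    refine ⟨n + 1, ?_⟩
    have hrow : T n = srow (Wf j) (lc.map fun c => T c.1 c.2) (st n).1 := by
      show (st (n + 1)).2 n = _
      rw [hst, hmap, hn1]
      exact Function.update_self _ _ _
    have hq : (st (n + 1)).1 = sq (Wf j) (lc.map fun c => T c.1 c.2) (st n).1 := by
      rw [hst, hmap, hn1]
    rcases hsrow (Wf j) (lc.map fun c => T c.1 c.2) (st n).1 with ⟨S, hS, hW'⟩ | h
    · refine Or.inl ⟨S, fun x hx => ?_, by show Wf j _ S (st (n + 1)).1; rw [hq]; exact hW'⟩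
      obtain ⟨m, rfl⟩ := hS hx
      exact ⟨(n, m), by show T n m = _; rw [hrow]⟩
    · refine Or.inr fun r hr => h r ?_
      rw [← hq]; exact hr

namespace PreGen

variable (g : PreGen P)

/-- The filter of sets of conditions containing everything below a member of the sequence. -/
def fil : Filter P where
  sets := {s | ∃ n, ∀ q ≤ g.h n, q ∈ s}
  univ_sets := ⟨0, fun _ _ => trivial⟩
  sets_of_superset := fun ⟨n, hn⟩ h => ⟨n, fun q hq => h (hn q hq)⟩
  inter_sets := fun ⟨n, hn⟩ ⟨m, hm⟩ => ⟨max n m, fun q hq =>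
    ⟨hn q (hq.trans (g.anti (le_max_left _ _))), hm q (hq.trans (g.anti (le_max_right _ _)))⟩⟩

theorem ev_iff {u : P → Prop} : (∀ᶠ q in g.fil, u q) ↔ ∃ n, ∀ q ≤ g.h n, u q := Iff.rfl

instance : g.fil.NeBot := ⟨fun h => by
  have : (∅ : Set P) ∈ g.fil := by rw [h]; trivial
  obtain ⟨n, hn⟩ := this
  exact hn _ le_rfl⟩

variable {g}

theorem ev_below {u : P → Prop} (h : ∀ᶠ q in g.fil, u q) : ∀ᶠ q in g.fil, ∀ r ≤ q, u r :=
  let ⟨n, hn⟩ := h
  ⟨n, fun _ hq r hr => hn r (hr.trans hq)⟩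

theorem ev_not_neg {u : P → Prop} (h : ∀ᶠ q in g.fil, u q) (h' : ∀ᶠ q in g.fil, Neg u q) :
    False :=
  let ⟨q, h1, h2⟩ := (h.and h').exists
  h2 q le_rfl h1

/-- Form of `Meets` for monotone tasks. -/
theorem Meets.ev {W : Job P} (hW : g.Meets W) (hm : ∀ l S p q, W l S p → q ≤ p → W l S q)
    (l : List (Name P)) (hl : ∀ x ∈ l, x ∈ g.N) :
    (∃ S ⊆ g.N, ∀ᶠ q in g.fil, W l S q) ∨
      ∀ᶠ q in g.fil, ∀ r ≤ q, ∀ S : Set (Name P), S.Countable → ¬ W l S r := by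
  obtain ⟨n, ⟨S, hS, h⟩ | h⟩ := hW l hl
  · exact Or.inl ⟨S, hS, n, fun q hq => hm _ _ _ _ h hq⟩
  · exact Or.inr ⟨n, fun q hq r hr => h r (hr.trans hq)⟩

/-- Closure under a countably valued operation. -/
theorem Meets.closed {F : List (Name P) → Set (Name P)} (hF : ∀ l, (F l).Countable)
    (hW : g.Meets fun l S _ => F l ⊆ S) (l : List (Name P)) (hl : ∀ x ∈ l, x ∈ g.N) :
    F l ⊆ g.N := by
  obtain ⟨n, ⟨S, hS, h⟩ | h⟩ := hW l hl
  · exact h.trans hS
  · exact absurd subset_rfl (h _ le_rfl _ (hF l))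

end PreGen

/-- A sufficiently generic pair. -/
structure Gen (P : Type) [Preorder P] extends PreGen P where
  wit : ∀ φ l, (∀ x ∈ l, x ∈ N) → (∀ᶠ q in toPreGen.fil, Force (.all φ) l q) ∨
    ∃ σ ∈ N, ∀ᶠ q in toPreGen.fil, Neg (Force φ (σ :: l)) q
  dec : ∀ φ l, (∀ x ∈ l, x ∈ N) → (∀ᶠ q in toPreGen.fil, Force φ l q) ∨
    ∀ᶠ q in toPreGen.fil, Neg (Force φ l) q
  rk : ∀ σ ∈ N, ∃ β, ∀ᶠ q in toPreGen.fil, Rk σ β q
  child : ∀ ρ ∈ N, ∀ τ ∈ N, (∀ᶠ q in toPreGen.fil, Fmem ρ τ q) →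
    ∃ i, τ.A i ∈ N ∧ ∀ᶠ q in toPreGen.fil, τ.act i q ∧ Feq ρ (τ.A i) q
  kids : ∀ τ ∈ N, Countable τ.ι → ∀ i, τ.A i ∈ N
  emp_mem : emp ∈ N
  omega_mem : oc Ordinal.omega0 ∈ N
  upair_mem : ∀ σ ∈ N, ∀ τ ∈ N, upair σ τ ∈ N
  un_mem : ∀ σ ∈ N, un σ ∈ N
  pow_mem : ∀ σ ∈ N, pow σ ∈ N
  ch_mem : ∀ σ ∈ N, chN σ ∈ N
  fam_mem : ∀ l : List (Name P), (∀ x ∈ l, x ∈ N) → fam (fun i : Fin l.length => l[i]) ∈ N
  sep_mem : ∀ φ, ∀ σ ∈ N, ∀ l, (∀ x ∈ l, x ∈ N) → sepN φ σ l ∈ N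
  coll_mem : ∀ φ, ∀ σ ∈ N, ∀ l, (∀ x ∈ l, x ∈ N) → collN φ σ l ∈ N
  collw : ∀ φ, ∀ ρ ∈ N, ∀ τ ∈ N, ∀ η l, (∀ x ∈ l, x ∈ N) →
    (∀ᶠ q in toPreGen.fil, Fmem ρ τ q ∧ Force φ (η :: ρ :: l) q) →
    ∃ σ ∈ N, ∀ᶠ q in toPreGen.fil, Fmem σ (collN φ τ l) q ∧ Force φ (σ :: ρ :: l) q

/-- A numerical code of a formula. -/
def Fm.enc : Fm → ℕ
  | .mem i j => Nat.pair 0 (Nat.pair i j)
  | .eq i j => Nat.pair 1 (Nat.pair i j)
  | .bot => Nat.pair 2 0
  | .imp φ ψ => Nat.pair 3 (Nat.pair φ.enc ψ.enc)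
  | .all φ => Nat.pair 4 φ.enc

instance : Countable Fm := by
  refine ⟨Fm.enc, fun φ => ?_⟩
  induction φ with
  | mem i j => intro ψ h; cases ψ <;> simp_all [Fm.enc]
  | eq i j => intro ψ h; cases ψ <;> simp_all [Fm.enc]
  | bot => intro ψ h; cases ψ <;> simp_all [Fm.enc]
  | imp φ ψ ih1 ih2 =>
    intro χ h
    cases χ <;> simp only [Fm.enc, Nat.pair_eq_pair] at h <;> try omega
    rw [ih1 h.2.1, ih2 h.2.2]
  | all φ ih =>
    intro χ h
    cases χ <;> simp only [Fm.enc, Nat.pair_eq_pair] at h <;> try omega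
    rw [ih h.2]

theorem exists_gen (𝒲 : Set (Job P)) (hc : 𝒲.Countable) (p0 : P) :
    ∃ g : Gen P, g.h 0 ≤ p0 ∧ ∀ W ∈ 𝒲, g.Meets W := by
  classical
  let tW : Fm → Job P := fun φ l S q => ∃ σ ∈ S, Neg (Force φ (σ :: l)) q
  let tD : Fm → Job P := fun φ l _ q => Force φ l q
  let tR : Job P := fun l _ q => ∃ β, Rk (l.getD 0 emp) β q
  let tC : Job P := fun l S q => ∃ i, (l.getD 1 emp).A i ∈ S ∧ (l.getD 1 emp).act i q ∧
    Feq (l.getD 0 emp) ((l.getD 1 emp).A i) q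
  let F1 : List (Name P) → Set (Name P) := fun l =>
    if Countable (l.getD 0 emp).ι then range (l.getD 0 emp).A else ∅
  let F2 : List (Name P) → Set (Name P) := fun l =>
    {emp, oc Ordinal.omega0, upair (l.getD 0 emp) (l.getD 1 emp), un (l.getD 0 emp),
      pow (l.getD 0 emp), chN (l.getD 0 emp), fam (fun i : Fin l.length => l[i])} ∪
    (range (fun φ => sepN φ (l.getD 0 emp) l.tail) ∪
      range (fun φ => collN φ (l.getD 0 emp) l.tail))
  let tL : Fm → Job P := fun φ l S q => ∃ σ ∈ S,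
    Fmem σ (collN φ (l.getD 1 emp) l.tail.tail) q ∧ Force φ (σ :: l.getD 0 emp :: l.tail.tail) q
  have hF1 : ∀ l, (F1 l).Countable := fun l => by
    simp only [F1]
    split_ifs with h
    · exact countable_range _
    · exact countable_empty
  have hF2 : ∀ l, (F2 l).Countable := fun l =>
    (toFinite _).countable.union ((countable_range _).union (countable_range _))
  obtain ⟨g, hg0, hg⟩ := exists_meets
    (𝒲 ∪ ({tR, tC, fun l S _ => F1 l ⊆ S, fun l S _ => F2 l ⊆ S} ∪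
      (range tW ∪ (range tD ∪ range tL))))
    (hc.union ((toFinite _).countable.union ((countable_range _).union
      ((countable_range _).union (countable_range _))))) p0
  have mR := hg tR (Or.inr (Or.inl (by simp)))
  have mC := hg tC (Or.inr (Or.inl (by simp)))
  have m1 := PreGen.Meets.closed hF1 (hg _ (Or.inr (Or.inl (by simp))))
  have m2 := PreGen.Meets.closed hF2 (hg _ (Or.inr (Or.inl (by simp))))
  have mW := fun φ => hg (tW φ) (Or.inr (Or.inr (Or.inl ⟨φ, rfl⟩)))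
  have mD := fun φ => hg (tD φ) (Or.inr (Or.inr (Or.inr (Or.inl ⟨φ, rfl⟩))))
  have mL := fun φ => hg (tL φ) (Or.inr (Or.inr (Or.inr (Or.inr ⟨φ, rfl⟩))))
  have one : ∀ {σ}, σ ∈ g.N → ∀ x ∈ [σ], x ∈ g.N := fun h x hx => by
    rw [List.mem_singleton.1 hx]; exact h
  have cons : ∀ {σ l}, σ ∈ g.N → (∀ x ∈ l, x ∈ g.N) → ∀ x ∈ σ :: l, x ∈ g.N :=
    fun h h' => List.forall_mem_cons.2 ⟨h, h'⟩
  refine ⟨⟨g, fun φ l hl => ?_, fun φ l hl => ?_, fun σ hσ => ?_, fun ρ hρ τ hτ h => ?_,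
    fun τ hτ hc i => ?_, m2 [] (by simp) (Or.inl (by simp)), m2 [] (by simp) (Or.inl (by simp)),
    fun σ hσ τ hτ => m2 [σ, τ] (cons hσ (one hτ)) (Or.inl (by simp)),
    fun σ hσ => m2 [σ] (one hσ) (Or.inl (by simp)),
    fun σ hσ => m2 [σ] (one hσ) (Or.inl (by simp)),
    fun σ hσ => m2 [σ] (one hσ) (Or.inl (by simp)),
    fun l hl => m2 l hl (Or.inl (by simp)),
    fun φ σ hσ l hl => m2 (σ :: l) (cons hσ hl) (Or.inr (Or.inl ⟨φ, rfl⟩)),
    fun φ σ hσ l hl => m2 (σ :: l) (cons hσ hl) (Or.inr (Or.inr ⟨φ, rfl⟩)),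
    fun φ ρ hρ τ hτ η l hl h => ?_⟩, hg0, fun W hW => hg W (Or.inl hW)⟩
  · rcases (mW φ).ev (fun l S p q ⟨σ, h1, h2⟩ hq => ⟨σ, h1, h2.mono hq⟩) l hl with
      ⟨S, hS, h⟩ | h
    · obtain ⟨n, hn⟩ := h
      obtain ⟨σ, h1, h2⟩ := hn _ le_rfl
      exact Or.inr ⟨σ, hS h1, n, fun q hq => h2.mono hq⟩
    · refine Or.inl (h.mono fun q hq σ => Force.reg (dn_of_not_neg fun r hr hn => ?_))
      exact hq r hr {σ} (countable_singleton _) ⟨σ, rfl, hn⟩
  · rcases (mD φ).ev (fun l S p q h hq => Force.mono h hq) l hl with ⟨S, -, h⟩ | h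
    · exact Or.inl h
    · exact Or.inr (h.mono fun q hq r hr => hq r hr ∅ countable_empty)
  · obtain ⟨n, ⟨S, -, β, h⟩ | h⟩ := mR [σ] (one hσ)
    · exact ⟨β, n, fun q hq => h.mono hq⟩
    · obtain ⟨q, hq, β, hβ⟩ := exists_rk σ (g.h n)
      exact absurd ⟨β, hβ⟩ (h q hq ∅ countable_empty)
  · rcases mC.ev (fun l S p q ⟨i, h1, h2, h3⟩ hq => ⟨i, h1, h2.mono hq, h3.mono hq⟩) [ρ, τ]
      (cons hρ (one hτ)) with ⟨S, hS, n, hn⟩ | h'
    · obtain ⟨i, h1, h2, h3⟩ := hn _ le_rfl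
      exact ⟨i, hS h1, n, fun q hq => ⟨h2.mono hq, h3.mono hq⟩⟩
    · obtain ⟨q, h1, h2⟩ := (h.and h').exists
      obtain ⟨r, hr, i, hi, he⟩ := h1 q le_rfl
      exact absurd ⟨i, rfl, hi, he⟩ (h2 r hr {τ.A i} (countable_singleton _))
  · refine m1 [τ] (one hτ) ?_
    simp only [F1, List.getD_cons_zero, if_pos hc]
    exact ⟨i, rfl⟩
  · rcases (mL φ).ev (fun l S p q ⟨σ, h1, h2, h3⟩ hq => ⟨σ, h1, h2.mono hq, h3.mono hq⟩)
      (ρ :: τ :: l) (cons hρ (cons hτ hl)) with ⟨S, hS, n, hn⟩ | h'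
    · obtain ⟨σ, h1, h2, h3⟩ := hn _ le_rfl
      exact ⟨σ, hS h1, n, fun q hq => ⟨h2.mono hq, h3.mono hq⟩⟩
    · obtain ⟨q, h1, h2⟩ := (h.and h').exists
      obtain ⟨r, hr, σ, h3, h4⟩ := collN_spec h1.1 h1.2
      exact absurd ⟨σ, rfl, h3, h4⟩ (h2 r hr {σ} (countable_singleton _))

end Pool.Agent.Lib.Common.Forcing
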