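import Mathlib
import Pool.Agent.Lib.Common.Forcing.Henkin

/-!
The countable transitive model attached to a generic pair: collapse, truth lemma, ZFC.
-/

set_option autoImplicit false

namespace Pool.Agent.Lib.Common.Forcing

open Set Filter

variable {P : Type} [Preorder P]

/-- The von Neumann numerals. -/
theorem mem_omega_iff {x : ZFSet.{0}} :
    x ∈ ZFSet.omega ↔ ∃ n : ℕ, (n : Ordinal.{0}).toZFSet = x := by
  have h : ∀ n : ℕ, ZFSet.mk (PSet.ofNat n) = (n : Ordinal.{0}).toZFSet := by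
    intro n
    induction n with
    | zero => simp only [Nat.cast_zero, Ordinal.toZFSet_zero]; rfl
    | succ n ih =>
      rw [Nat.cast_succ, Ordinal.toZFSet_add_one, ← ih]
      rfl
  induction x using Quotient.inductionOn with
  | _ x =>
    constructor
    · rintro ⟨⟨n⟩, hn⟩
      exact ⟨n, (h n).symm.trans (ZFSet.sound hn).symm⟩
    · rintro ⟨n, hn⟩
      rw [← hn, ← h n]
      exact ⟨⟨n⟩, PSet.Equiv.rfl⟩

namespace Gen

variable (g : Gen P)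

/-- Membership between names of the countable set, according to the generic sequence. -/
def rel (σ τ : Name P) : Prop := σ ∈ g.N ∧ τ ∈ g.N ∧ ∀ᶠ q in g.fil, Fmem σ τ q

theorem rel_wf : WellFounded g.rel := by
  classical
  let f : Name P → Ordinal.{0} := fun σ => if h : σ ∈ g.N then (g.rk σ h).choose else 0
  refine Subrelation.wf (r := InvImage (· < ·) f) (fun {σ τ} h => ?_) (InvImage.wf f wellFounded_lt)
  obtain ⟨q, h1, h2, h3⟩ :=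
    ((g.rk σ h.1).choose_spec.and ((g.rk τ h.2.1).choose_spec.and h.2.2)).exists
  show f σ < f τ
  simp only [f, dif_pos h.1, dif_pos h.2.1]
  exact h1.lt_of_mem h2 h3

instance (τ : Name P) : Small.{0} {σ // g.rel σ τ} := by
  have : Countable {σ // g.rel σ τ} := (g.countable.mono fun σ (h : g.rel σ τ) => h.1).to_subtype
  infer_instance

instance : Small.{0} g.N := by
  have : Countable g.N := g.countable.to_subtype
  infer_instance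

/-- The Mostowski collapse. -/
noncomputable def π : Name P → ZFSet.{0} :=
  g.rel_wf.fix fun τ ih => ZFSet.range fun σ : {σ // g.rel σ τ} => ih σ.1 σ.2

theorem mem_π {τ : Name P} {x : ZFSet.{0}} : x ∈ g.π τ ↔ ∃ σ, g.rel σ τ ∧ g.π σ = x := by
  conv_lhs => rw [π, WellFounded.fix_eq]
  rw [ZFSet.mem_range]
  exact ⟨fun ⟨σ, h⟩ => ⟨σ.1, σ.2, h⟩, fun ⟨σ, h, h'⟩ => ⟨⟨σ, h⟩, h'⟩⟩

/-- The model. -/
noncomputable def M : ZFSet.{0} := ZFSet.range fun σ : g.N => g.π σ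

variable {g}

theorem mem_M {x : ZFSet.{0}} : x ∈ g.M ↔ ∃ σ ∈ g.N, g.π σ = x := by
  rw [M, ZFSet.mem_range]
  exact ⟨fun ⟨σ, h⟩ => ⟨σ.1, σ.2, h⟩, fun ⟨σ, h, h'⟩ => ⟨⟨σ, h⟩, h'⟩⟩

theorem π_mem_M {σ : Name P} (h : σ ∈ g.N) : g.π σ ∈ g.M := mem_M.2 ⟨σ, h, rfl⟩

theorem l1 {σ : Name P} (h : σ ∈ g.N) : ∀ x ∈ [σ], x ∈ g.N := fun x hx => by
  rw [List.mem_singleton.1 hx]; exact h

theorem lc {σ : Name P} {l : List (Name P)} (h : σ ∈ g.N) (h' : ∀ x ∈ l, x ∈ g.N) :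
    ∀ x ∈ σ :: l, x ∈ g.N := List.forall_mem_cons.2 ⟨h, h'⟩

theorem l2 {σ τ : Name P} (h : σ ∈ g.N) (h' : τ ∈ g.N) : ∀ x ∈ [σ, τ], x ∈ g.N := lc h (l1 h')

theorem l3 {σ τ ρ : Name P} (h : σ ∈ g.N) (h' : τ ∈ g.N) (h'' : ρ ∈ g.N) :
    ∀ x ∈ [σ, τ, ρ], x ∈ g.N := lc h (l2 h' h'')

theorem dec_mem {σ τ : Name P} (h : σ ∈ g.N) (h' : τ ∈ g.N) :
    (∀ᶠ q in g.fil, Fmem σ τ q) ∨ ∀ᶠ q in g.fil, Neg (Fmem σ τ) q :=
  g.dec (.mem 0 1) [σ, τ] (l2 h h')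

theorem dec_eq {σ τ : Name P} (h : σ ∈ g.N) (h' : τ ∈ g.N) :
    (∀ᶠ q in g.fil, Feq σ τ q) ∨ ∀ᶠ q in g.fil, Neg (Feq σ τ) q :=
  g.dec (.eq 0 1) [σ, τ] (l2 h h')

theorem π_eq_of_ev {σ τ : Name P} (hσ : σ ∈ g.N) (hτ : τ ∈ g.N)
    (h : ∀ᶠ q in g.fil, Feq σ τ q) : g.π σ = g.π τ := by
  ext x
  rw [mem_π, mem_π]
  constructor
  · rintro ⟨ρ, ⟨h1, -, h3⟩, rfl⟩
    exact ⟨ρ, ⟨h1, hτ, by filter_upwards [h, h3] with q a b using b.congr_right a⟩, rfl⟩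
  · rintro ⟨ρ, ⟨h1, -, h3⟩, rfl⟩
    exact ⟨ρ, ⟨h1, hσ, by filter_upwards [h, h3] with q a b using b.congr_right a.symm⟩, rfl⟩

theorem ev_sub_of {σ τ : Name P} (hσ : σ ∈ g.N) (hτ : τ ∈ g.N)
    (h : ∀ ρ ∈ g.N, (∀ᶠ q in g.fil, Fmem ρ σ q) → ∀ᶠ q in g.fil, Fmem ρ τ q) :
    ∀ᶠ q in g.fil, Fsub σ τ q := by
  rcases g.wit (.imp (.mem 0 1) (.mem 0 2)) [σ, τ] (l2 hσ hτ) with h' | ⟨ρ, hρ, h'⟩
  · exact h'
  · exfalso
    rcases dec_mem hρ hσ with h1 | h1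
    · refine PreGen.ev_not_neg ?_ h'
      filter_upwards [h ρ hρ h1] with q hq r hr _ using hq.mono hr
    · refine PreGen.ev_not_neg ?_ h'
      filter_upwards [h1] with q hq r hr h2 using absurd h2 (hq r hr)

theorem ev_eq_of_π_eq {σ τ : Name P} (hσ : σ ∈ g.N) (hτ : τ ∈ g.N) (h : g.π σ = g.π τ) :
    ∀ᶠ q in g.fil, Feq σ τ q := by
  have key : ∀ x : ZFSet.{0}, ∀ σ ∈ g.N, ∀ τ ∈ g.N, g.π σ = x → g.π τ = x →
      ∀ᶠ q in g.fil, Feq σ τ q := by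
    intro x
    induction x using ZFSet.inductionOn with
    | _ x ih =>
      have half : ∀ σ ∈ g.N, ∀ τ ∈ g.N, g.π σ = x → g.π τ = x →
          ∀ᶠ q in g.fil, Fsub σ τ q := by
        intro σ hσ τ hτ h1 h2
        refine ev_sub_of hσ hτ fun ρ hρ hm => ?_
        have hx : g.π ρ ∈ x := h1 ▸ (g.mem_π).2 ⟨ρ, ⟨hρ, hσ, hm⟩, rfl⟩
        obtain ⟨ρ', ⟨a, -, b⟩, c⟩ := (g.mem_π).1 (h2 ▸ hx : g.π ρ ∈ g.π τ)
        filter_upwards [ih _ hx ρ' a ρ hρ c rfl, b] with q e f using f.congr_left e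
      intro σ hσ τ hτ h1 h2
      filter_upwards [half σ hσ τ hτ h1 h2, half τ hτ σ hσ h2 h1] with q a b using Feq.ext a b
  exact key _ σ hσ τ hτ h rfl

theorem π_eq_iff {σ τ : Name P} (hσ : σ ∈ g.N) (hτ : τ ∈ g.N) :
    g.π σ = g.π τ ↔ ∀ᶠ q in g.fil, Feq σ τ q :=
  ⟨ev_eq_of_π_eq hσ hτ, π_eq_of_ev hσ hτ⟩

theorem π_mem_iff {σ τ : Name P} (hσ : σ ∈ g.N) (hτ : τ ∈ g.N) :
    g.π σ ∈ g.π τ ↔ ∀ᶠ q in g.fil, Fmem σ τ q := by
  rw [mem_π]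
  constructor
  · rintro ⟨ρ, ⟨a, -, b⟩, c⟩
    filter_upwards [ev_eq_of_π_eq a hσ c, b] with q e f using f.congr_left e
  · exact fun h => ⟨σ, ⟨hσ, hτ, h⟩, rfl⟩

theorem exists_of_mem_π {τ : Name P} {x : ZFSet.{0}} (h : x ∈ g.π τ) :
    ∃ σ ∈ g.N, g.π σ = x ∧ ∀ᶠ q in g.fil, Fmem σ τ q :=
  let ⟨σ, ⟨a, _, b⟩, c⟩ := (g.mem_π).1 h
  ⟨σ, a, c, b⟩

theorem exists_child {τ : Name P} (hτ : τ ∈ g.N) {x : ZFSet.{0}} (h : x ∈ g.π τ) :
    ∃ i, τ.A i ∈ g.N ∧ g.π (τ.A i) = x ∧ ∀ᶠ q in g.fil, τ.act i q := by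
  obtain ⟨σ, a, rfl, b⟩ := exists_of_mem_π h
  obtain ⟨i, h1, h2⟩ := g.child σ a τ hτ b
  exact ⟨i, h1, (π_eq_of_ev a h1 (h2.mono fun q hq => hq.2)).symm, h2.mono fun q hq => hq.1⟩

theorem π_sub_iff {σ τ : Name P} (hσ : σ ∈ g.N) (hτ : τ ∈ g.N) :
    g.π σ ⊆ g.π τ ↔ ∀ᶠ q in g.fil, Fsub σ τ q := by
  constructor
  · intro h
    exact ev_sub_of hσ hτ fun ρ hρ hm => (π_mem_iff hρ hτ).1 (h ((π_mem_iff hρ hσ).2 hm))
  · intro h x hx
    obtain ⟨ρ, a, rfl, b⟩ := exists_of_mem_π hx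
    refine (π_mem_iff a hτ).2 ?_
    filter_upwards [h, b] with q c d using c ρ q le_rfl d

theorem π_emp : g.π emp = ∅ := by
  rw [ZFSet.eq_empty]
  intro x hx
  obtain ⟨ρ, -, -, b⟩ := exists_of_mem_π hx
  obtain ⟨q, hq⟩ := b.exists
  exact not_fmem_emp _ _ hq

theorem getD_mem {l : List (Name P)} (hl : ∀ x ∈ l, x ∈ g.N) (i : ℕ) : l.getD i emp ∈ g.N := by
  rcases lt_or_ge i l.length with h | h
  · rw [List.getD_eq_getElem _ _ h]; exact hl _ (List.getElem_mem h)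
  · rw [List.getD_eq_default _ _ h]; exact g.emp_mem

theorem getD_map (l : List (Name P)) (i : ℕ) :
    (l.map g.π).getD i ∅ = g.π (l.getD i emp) := by
  rw [← π_emp (g := g), List.getD_map]

/-- The truth lemma. -/
theorem truth (φ : Fm) {l : List (Name P)} (hl : ∀ x ∈ l, x ∈ g.N) :
    Sat g.M φ (l.map g.π) ↔ ∀ᶠ q in g.fil, Force φ l q := by
  induction φ generalizing l with
  | mem i j =>
    simp only [Sat, getD_map]
    exact π_mem_iff (getD_mem hl i) (getD_mem hl j)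
  | eq i j =>
    simp only [Sat, getD_map]
    exact π_eq_iff (getD_mem hl i) (getD_mem hl j)
  | bot => exact ⟨False.elim, fun h => let ⟨_, h'⟩ := h.exists; h'⟩
  | imp φ ψ ih1 ih2 =>
    simp only [Sat]
    rw [ih1 hl, ih2 hl]
    constructor
    · intro h
      rcases g.dec φ l hl with h1 | h1
      · filter_upwards [h h1] with q hq r hr _ using hq.mono hr
      · filter_upwards [h1] with q hq r hr h2 using absurd h2 (hq r hr)
    · intro h h1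
      filter_upwards [h, h1] with q a b using a q le_rfl b
  | all φ ih =>
    simp only [Sat]
    constructor
    · intro h
      rcases g.wit φ l hl with h1 | ⟨σ, hσ, h1⟩
      · exact h1
      · exact (PreGen.ev_not_neg ((ih (lc hσ hl)).1 (h _ (π_mem_M hσ))) h1).elim
    · intro h x hx
      obtain ⟨σ, hσ, rfl⟩ := mem_M.1 hx
      exact (ih (lc hσ hl)).2 (h.mono fun q hq => hq σ)

theorem exists_list {e : List ZFSet.{0}} (he : ∀ z ∈ e, z ∈ g.M) :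
    ∃ l : List (Name P), (∀ x ∈ l, x ∈ g.N) ∧ l.map g.π = e := by
  induction e with
  | nil => exact ⟨[], by simp, rfl⟩
  | cons z e ih =>
    obtain ⟨l, hl, rfl⟩ := ih fun y hy => he y (List.mem_cons_of_mem _ hy)
    obtain ⟨σ, hσ, rfl⟩ := mem_M.1 (he z List.mem_cons_self)
    exact ⟨σ :: l, lc hσ hl, rfl⟩

theorem mem_π_fam {ι : Type} {A : ι → Name P} (h : fam A ∈ g.N) (hA : ∀ i, A i ∈ g.N)
    {x : ZFSet.{0}} : x ∈ g.π (fam A) ↔ ∃ i, g.π (A i) = x := by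
  constructor
  · intro hx
    obtain ⟨i, -, h', -⟩ := exists_child h hx
    exact ⟨i, h'⟩
  · rintro ⟨i, rfl⟩
    exact (π_mem_iff (hA i) h).2 (Eventually.of_forall fun q => fmem_fam_self A i q)

theorem fam_kids {ι : Type} [hc : Countable ι] {A : ι → Name P} (h : fam A ∈ g.N) (i : ι) :
    A i ∈ g.N := g.kids (fam A) h hc i

theorem π_upair {σ τ : Name P} (hσ : σ ∈ g.N) (hτ : τ ∈ g.N) :
    g.π (upair σ τ) = {g.π σ, g.π τ} := by
  ext x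
  rw [upair, mem_π_fam (g.upair_mem σ hσ τ hτ) (fun b => by cases b <;> assumption),
    ZFSet.mem_pair]
  simp [eq_comm, or_comm]

theorem op_mem {σ τ : Name P} (hσ : σ ∈ g.N) (hτ : τ ∈ g.N) : op σ τ ∈ g.N :=
  g.upair_mem _ (g.upair_mem _ hσ _ hσ) _ (g.upair_mem _ hσ _ hτ)

theorem of_op_mem {σ τ : Name P} (h : op σ τ ∈ g.N) : σ ∈ g.N ∧ τ ∈ g.N :=
  have h' : upair σ τ ∈ g.N := fam_kids h false
  ⟨fam_kids h' true, fam_kids h' false⟩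

theorem π_op {σ τ : Name P} (hσ : σ ∈ g.N) (hτ : τ ∈ g.N) :
    g.π (op σ τ) = ZFSet.pair (g.π σ) (g.π τ) := by
  rw [op, π_upair (g.upair_mem _ hσ _ hσ) (g.upair_mem _ hσ _ hτ), π_upair hσ hσ, π_upair hσ hτ,
    ZFSet.pair_eq_singleton]
  rfl

theorem pair_mem_iff {σ τ ρ : Name P} (hσ : σ ∈ g.N) (hτ : τ ∈ g.N) (hρ : ρ ∈ g.N) :
    ZFSet.pair (g.π σ) (g.π τ) ∈ g.π ρ ↔ ∀ᶠ q in g.fil, Fmem (op σ τ) ρ q := by
  rw [← π_op hσ hτ, π_mem_iff (op_mem hσ hτ) hρ]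

theorem exists_of_mem_π_oc {o : Ordinal.{0}} (h : oc o ∈ g.N) {x : ZFSet.{0}}
    (hx : x ∈ g.π (oc o)) : ∃ a < o, oc a ∈ g.N ∧ g.π (oc a) = x := by
  rw [oc_eq] at h hx
  obtain ⟨i, h1, h2, -⟩ := exists_child h hx
  exact ⟨(Ordinal.ToType.toOrd (o := o) i).1, (Ordinal.ToType.toOrd (o := o) i).2, h1, h2⟩

theorem π_oc_mem_iff {a b : Ordinal.{0}} (ha : oc a ∈ g.N) (hb : oc b ∈ g.N) :
    g.π (oc a) ∈ g.π (oc b) ↔ a < b := by
  rw [π_mem_iff ha hb]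
  simp [fmem_oc_iff]

theorem π_oc_inj {a b : Ordinal.{0}} (ha : oc a ∈ g.N) (hb : oc b ∈ g.N) :
    g.π (oc a) = g.π (oc b) ↔ a = b := by
  rw [π_eq_iff ha hb]
  simp [feq_oc_iff]

theorem isOrdinal_π_oc (o : Ordinal.{0}) (h : oc o ∈ g.N) : (g.π (oc o)).IsOrdinal := by
  induction o using WellFoundedLT.induction with
  | ind o ih =>
    rw [ZFSet.isOrdinal_iff_forall_mem_isOrdinal]
    refine ⟨fun x hx y hy => ?_, fun x hx => ?_⟩
    · obtain ⟨a, ha, h1, rfl⟩ := exists_of_mem_π_oc h hx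
      obtain ⟨b, hb, h2, rfl⟩ := exists_of_mem_π_oc h1 hy
      exact (π_oc_mem_iff h2 h).2 (hb.trans ha)
    · obtain ⟨a, ha, h1, rfl⟩ := exists_of_mem_π_oc h hx
      exact ih a ha h1

theorem oc_mem_of_lt {a b : Ordinal.{0}} (hb : oc b ∈ g.N) (hc : b.card ≤ Cardinal.aleph0)
    (h : a < b) : oc a ∈ g.N := by
  rw [oc_eq] at hb
  have : Countable b.ToType := by
    rw [← Cardinal.mk_le_aleph0_iff, Cardinal.mk_toType]; exact hc
  have := fam_kids hb (Ordinal.ToType.mk ⟨a, h⟩)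
  simpa only [Ordinal.ToType.toOrd, OrderIso.symm_apply_apply] using this

theorem nat_mem (n : ℕ) : oc (n : Ordinal.{0}) ∈ g.N :=
  oc_mem_of_lt g.omega_mem (by simp) (Ordinal.natCast_lt_omega0 n)

theorem π_oc_countable (o : Ordinal.{0}) (h : oc o ∈ g.N) (hc : o.card ≤ Cardinal.aleph0) :
    g.π (oc o) = o.toZFSet := by
  induction o using WellFoundedLT.induction with
  | ind o ih =>
    ext x
    rw [Ordinal.mem_toZFSet_iff]
    constructor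
    · intro hx
      obtain ⟨a, ha, h1, rfl⟩ := exists_of_mem_π_oc h hx
      exact ⟨a, ha, (ih a ha h1 ((Ordinal.card_le_card ha.le).trans hc)).symm⟩
    · rintro ⟨a, ha, rfl⟩
      have h1 := oc_mem_of_lt h hc ha
      rw [← ih a ha h1 ((Ordinal.card_le_card ha.le).trans hc)]
      exact (π_oc_mem_iff h1 h).2 ha

theorem π_nat (n : ℕ) : g.π (oc (n : Ordinal.{0})) = (n : Ordinal.{0}).toZFSet :=
  π_oc_countable _ (nat_mem n) (by simp)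

theorem π_omega : g.π (oc Ordinal.omega0) = ZFSet.omega := by
  rw [π_oc_countable _ g.omega_mem (by simp)]
  ext x
  rw [Ordinal.mem_toZFSet_iff, mem_omega_iff]
  constructor
  · rintro ⟨a, ha, rfl⟩
    obtain ⟨n, rfl⟩ := Ordinal.lt_omega0.1 ha
    exact ⟨n, rfl⟩
  · rintro ⟨n, rfl⟩
    exact ⟨n, Ordinal.natCast_lt_omega0 n, rfl⟩

theorem π_un {τ : Name P} (hτ : τ ∈ g.N) : g.π (un τ) = ZFSet.sUnion (g.π τ) := by
  ext x
  rw [ZFSet.mem_sUnion]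
  constructor
  · intro hx
    obtain ⟨η, hη, rfl, h⟩ := exists_of_mem_π hx
    by_contra hc
    have : Sat g.M (.all (.imp (.mem 0 2) (.imp (.mem 1 0) .bot))) ([η, τ].map g.π) :=
      fun y _ h1 h2 => hc ⟨y, h1, h2⟩
    obtain ⟨q, h1, h2⟩ := (((truth _ (l2 hη hτ)).1 this).and h).exists
    obtain ⟨r, hr, ρ, h3, h4⟩ := h2.un_elim le_rfl
    exact h1 ρ r hr h4 r le_rfl h3
  · rintro ⟨y, hy, hx⟩
    obtain ⟨ρ, hρ, rfl, h1⟩ := exists_of_mem_π hy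
    obtain ⟨η, hη, rfl, h2⟩ := exists_of_mem_π hx
    refine (π_mem_iff hη (g.un_mem τ hτ)).2 ?_
    filter_upwards [h1, h2] with q a b using fmem_un b a

/-- The collapse is a countable transitive model of ZFC. -/
theorem isCTM : IsCTM g.M where
  countable := by
    have : (g.M : Set ZFSet.{0}) = g.π '' g.N := by
      ext x; exact mem_M
    rw [this]
    exact g.countable.image _
  trans := fun x hx y hy => by
    obtain ⟨σ, -, rfl⟩ := mem_M.1 hx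
    obtain ⟨ρ, hρ, rfl, -⟩ := exists_of_mem_π hy
    exact π_mem_M hρ
  pair := fun x hx y hy => by
    obtain ⟨σ, hσ, rfl⟩ := mem_M.1 hx
    obtain ⟨τ, hτ, rfl⟩ := mem_M.1 hy
    rw [← π_upair hσ hτ]
    exact π_mem_M (g.upair_mem σ hσ τ hτ)
  union := fun x hx => by
    obtain ⟨σ, hσ, rfl⟩ := mem_M.1 hx
    rw [← π_un hσ]
    exact π_mem_M (g.un_mem σ hσ)
  inf := π_omega (g := g) ▸ π_mem_M g.omega_mem
  power := fun x hx => by
    obtain ⟨σ, hσ, rfl⟩ := mem_M.1 hx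
    refine ⟨_, π_mem_M (g.pow_mem σ hσ), fun z hz h => ?_⟩
    obtain ⟨ρ, hρ, rfl⟩ := mem_M.1 hz
    exact (π_mem_iff hρ (g.pow_mem σ hσ)).2 (((π_sub_iff hρ hσ).1 h).mono fun q => fmem_pow)
  sep := fun φ e he a ha => by
    obtain ⟨l, hl, rfl⟩ := exists_list he
    obtain ⟨τ, hτ, rfl⟩ := mem_M.1 ha
    have hs := g.sep_mem φ τ hτ l hl
    refine ⟨_, π_mem_M hs, fun x => ⟨fun hx => ?_, fun hx => ?_⟩⟩
    · obtain ⟨ρ, hρ, rfl, h⟩ := exists_of_mem_π hx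
      exact ⟨(π_mem_iff hρ hτ).2 (h.mono fun q hq => (fmem_sepN.1 hq).1),
        (truth φ (lc hρ hl)).2 (h.mono fun q hq => (fmem_sepN.1 hq).2)⟩
    · obtain ⟨ρ, hρ, rfl, h⟩ := exists_of_mem_π hx.1
      refine (π_mem_iff hρ hs).2 ?_
      filter_upwards [h, (truth φ (lc hρ hl)).1 hx.2] with q a b using fmem_sepN.2 ⟨a, b⟩
  coll := fun φ e he a ha h => by
    obtain ⟨l, hl, rfl⟩ := exists_list he
    obtain ⟨τ, hτ, rfl⟩ := mem_M.1 ha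
    have hs := g.coll_mem φ τ hτ l hl
    refine ⟨_, π_mem_M hs, fun x hx => ?_⟩
    obtain ⟨y, hy, hxy⟩ := h x hx
    obtain ⟨ρ, hρ, rfl, h1⟩ := exists_of_mem_π hx
    obtain ⟨η, hη, rfl⟩ := mem_M.1 hy
    obtain ⟨σ, hσ, h2⟩ := g.collw φ ρ hρ τ hτ η l hl
      (h1.and ((truth φ (lc hη (lc hρ hl))).1 hxy))
    exact ⟨_, (π_mem_iff hσ hs).2 (h2.mono fun q hq => hq.1),
      (truth φ (lc hσ (lc hρ hl))).2 (h2.mono fun q hq => hq.2)⟩
  choice := fun a ha hne hd => by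
    obtain ⟨τ, hτ, rfl⟩ := mem_M.1 ha
    have hs := g.ch_mem τ hτ
    have hd' : Sat g.M (.all (.all (.all (.imp (.mem 2 3) (.imp (.mem 1 3) (.imp (.mem 0 2)
        (.imp (.mem 0 1) (.eq 2 1)))))))) ([τ].map g.π) :=
      fun u _ v _ w _ h1 h2 h3 h4 => hd u h1 v h2 w h3 h4
    have hd'' := (truth _ (l1 hτ)).1 hd'
    refine ⟨_, π_mem_M hs, fun x hx => ?_⟩
    obtain ⟨y, hy⟩ := hne x hx
    obtain ⟨ρ, hρ, rfl, h1⟩ := exists_of_mem_π hx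
    obtain ⟨η, hη, rfl, h2⟩ := exists_of_mem_π hy
    refine existsUnique_of_exists_of_unique ?_ ?_
    · by_contra hc
      have : Sat g.M (.all (.imp (.mem 0 1) (.imp (.mem 0 2) .bot))) ([ρ, chN τ].map g.π) :=
        fun y _ h1 h2 => hc ⟨y, h1, h2⟩
      obtain ⟨q, a, b, c⟩ := (((truth _ (l2 hρ hs)).1 this).and (h1.and h2)).exists
      obtain ⟨r, hr, σ, h3, h4⟩ := chN_exists b c
      exact a σ r hr h3 r le_rfl h4
    · rintro y y' ⟨a, b⟩ ⟨a', b'⟩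
      obtain ⟨ζ, hζ, rfl, c⟩ := exists_of_mem_π a
      obtain ⟨ζ', hζ', rfl, c'⟩ := exists_of_mem_π a'
      refine π_eq_of_ev hζ hζ' ?_
      filter_upwards [hd'', h1, c, c', (π_mem_iff hζ hs).1 b, (π_mem_iff hζ' hs).1 b']
        with q d0 d1 d2 d3 d4 d5
      exact chN_unique (fun u v w r hr e1 e2 e3 e4 =>
        d0 u v w r hr e1 r le_rfl e2 r le_rfl e3 r le_rfl e4) d1 d2 d3 d4 d5

end Gen

end Pool.Agent.Lib.Common.Forcing
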