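import Mathlib
import Pool.Agent.Lib.Common.Forcing.Defs
import Pool.Agent.Lib.Common.Forcing.Model

/-!
Derived connectives, the formula expressing membership of an ordered pair, and evaluation of names.
-/

set_option autoImplicit false

namespace Pool.Agent.Lib.Common.Forcing

open ZFSet

namespace Fm

/-- Negation. -/
def neg (φ : Fm) : Fm := .imp φ .bot
/-- Conjunction. -/
def and (φ ψ : Fm) : Fm := neg (.imp φ (neg ψ))
/-- Disjunction. -/
def or (φ ψ : Fm) : Fm := .imp (neg φ) ψ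
/-- Existential quantifier. -/
def ex (φ : Fm) : Fm := neg (.all (neg φ))

/-- The ordered pair of the variables `a`, `b` belongs to the variable `f`. -/
def pairIn (a b f : ℕ) : Fm :=
  ex (and (.mem 0 (f + 1)) (ex (and (.mem 0 1) (ex (and (.mem 0 2)
    (and (.mem (a + 3) 1) (and (.all (.imp (.mem 0 2) (.eq 0 (a + 4))))
    (and (.mem (a + 3) 0) (and (.mem (b + 3) 0)
    (and (.all (.imp (.mem 0 1) (or (.eq 0 (a + 4)) (.eq 0 (b + 4)))))
      (.all (.imp (.mem 0 3) (or (.eq 0 2) (.eq 0 1))))))))))))))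

end Fm

variable {M : ZFSet.{0}}

theorem sat_neg {φ : Fm} {e : List ZFSet.{0}} : Sat M φ.neg e ↔ ¬ Sat M φ e := Iff.rfl

theorem sat_and {φ ψ : Fm} {e : List ZFSet.{0}} :
    Sat M (φ.and ψ) e ↔ Sat M φ e ∧ Sat M ψ e := by
  simp only [Fm.and, Fm.neg, Sat]; tauto

theorem sat_or {φ ψ : Fm} {e : List ZFSet.{0}} :
    Sat M (φ.or ψ) e ↔ Sat M φ e ∨ Sat M ψ e := by
  simp only [Fm.or, Fm.neg, Sat]; tauto

theorem sat_ex {φ : Fm} {e : List ZFSet.{0}} :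
    Sat M φ.ex e ↔ ∃ x ∈ M, Sat M φ (x :: e) := by
  simp only [Fm.ex, Fm.neg, Sat]
  constructor
  · intro h
    by_contra hc
    exact h fun x hx h' => hc ⟨x, hx, h'⟩
  · rintro ⟨x, hx, h⟩ h'
    exact h' x hx h

theorem sat_pairIn (hM : M.IsTransitive) {a b f : ℕ} {e : List ZFSet.{0}}
    (hf : e.getD f ∅ ∈ M) :
    Sat M (Fm.pairIn a b f) e ↔ pair (e.getD a ∅) (e.getD b ∅) ∈ e.getD f ∅ := by
  simp only [Fm.pairIn, sat_ex, sat_and, sat_or, Sat, List.getD_cons_succ, List.getD_cons_zero]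
  constructor
  · rintro ⟨z, hz, h1, u, hu, h2, v, hv, h3, h4, h5, h6, h7, h8, h9⟩
    have eu : u = {e.getD a ∅} := ZFSet.ext fun t => by
      rw [mem_singleton]
      exact ⟨fun ht => h5 t (hM u hu ht) ht, fun ht => ht ▸ h4⟩
    have ev : v = {e.getD a ∅, e.getD b ∅} := ZFSet.ext fun t => by
      rw [mem_pair]
      exact ⟨fun ht => h8 t (hM v hv ht) ht, fun ht => ht.elim (· ▸ h6) (· ▸ h7)⟩
    have ez : z = pair (e.getD a ∅) (e.getD b ∅) := ZFSet.ext fun t => by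
      rw [ZFSet.pair, mem_pair, ← eu, ← ev]
      exact ⟨fun ht => h9 t (hM z hz ht) ht, fun ht => ht.elim (· ▸ h2) (· ▸ h3)⟩
    exact ez ▸ h1
  · intro h
    have hz := hM _ hf h
    have h2 : ({e.getD a ∅} : ZFSet.{0}) ∈ pair (e.getD a ∅) (e.getD b ∅) := by
      simp [ZFSet.pair]
    have h3 : ({e.getD a ∅, e.getD b ∅} : ZFSet.{0}) ∈ pair (e.getD a ∅) (e.getD b ∅) := by
      simp [ZFSet.pair]
    refine ⟨_, hz, h, _, hM _ hz h2, h2, _, hM _ hz h3, h3, by simp, fun t _ ht => by simpa using ht,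
      by simp, by simp, fun t _ ht => by simpa using ht, fun t _ ht => ?_⟩
    rwa [ZFSet.pair, mem_pair] at ht

theorem IsCTM.inter_mem (h : IsCTM M) {x y : ZFSet.{0}} (hx : x ∈ M) (hy : y ∈ M) :
    x ∩ y ∈ M := by
  obtain ⟨b, hb, h'⟩ := h.sep (.mem 0 1) [y] (by simpa using hy) x hx
  have : b = x ∩ y := ZFSet.ext fun t => by rw [h', ZFSet.mem_inter]; rfl
  exact this ▸ hb

theorem IsCTM.sdiff_mem (h : IsCTM M) {x y : ZFSet.{0}} (hx : x ∈ M) (hy : y ∈ M) :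
    x \ y ∈ M := by
  obtain ⟨b, hb, h'⟩ := h.sep (Fm.neg (.mem 0 1)) [y] (by simpa using hy) x hx
  have : b = x \ y := ZFSet.ext fun t => by rw [h', ZFSet.mem_sdiff]; rfl
  exact this ▸ hb

/-- Evaluation of names exists for every class of conditions. -/
theorem exists_val (G : Set ZFSet.{0}) : ∃ v : ZFSet.{0} → ZFSet.{0},
    ∀ τ y, y ∈ v τ ↔ ∃ σ, ∃ p ∈ G, pair σ p ∈ τ ∧ y = v σ := by
  have hlt : ∀ {σ τ : ZFSet.{0}}, (∃ p ∈ G, pair σ p ∈ τ) → σ ∈ sUnion (sUnion τ) := by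
    rintro σ τ ⟨p, -, h⟩
    simp only [mem_sUnion]
    exact ⟨{σ}, ⟨_, h, by simp [ZFSet.pair]⟩, by simp⟩
  have hwf : WellFounded fun σ τ : ZFSet.{0} => ∃ p ∈ G, pair σ p ∈ τ := by
    refine Subrelation.wf (r := InvImage (· < ·) rank) (fun {σ τ} h => ?_)
      (InvImage.wf rank wellFounded_lt)
    exact (rank_lt_of_mem (hlt h)).trans_le ((rank_sUnion_le _).trans (rank_sUnion_le _))
  have hs : ∀ τ, Small.{0} {σ // ∃ p ∈ G, pair σ p ∈ τ} := fun τ =>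
    small_of_injective (f := fun σ => (⟨σ.1, hlt σ.2⟩ : sUnion (sUnion τ)))
      fun a b hab => Subtype.ext (Subtype.mk.inj hab)
  refine ⟨hwf.fix fun τ ih => range fun σ : {σ // ∃ p ∈ G, pair σ p ∈ τ} => ih σ.1 σ.2,
    fun τ y => ?_⟩
  conv_lhs => rw [WellFounded.fix_eq]
  rw [ZFSet.mem_range]
  exact ⟨fun ⟨σ, h⟩ => let ⟨p, a, b⟩ := σ.2; ⟨σ.1, p, a, b, h.symm⟩,
    fun ⟨σ, p, a, b, c⟩ => ⟨⟨σ, p, a, b⟩, c.symm⟩⟩

end Pool.Agent.Lib.Common.Forcing
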