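import Mathlib
import Pool.Agent.Lib.Common.Forcing.Names

/-!
The countable chain condition, and Cohen forcing.
-/

set_option autoImplicit false

namespace Pool.Agent.Lib.Common.Forcing

open Set

section
variable {P : Type} [Preorder P]

/-- Compatibility of conditions. -/
def Compat (p q : P) : Prop := ∃ r, r ≤ p ∧ r ≤ q

theorem Compat.symm {p q : P} (h : Compat p q) : Compat q p :=
  let ⟨r, a, b⟩ := h; ⟨r, b, a⟩

/-- The countable chain condition. -/
def CCC (P : Type) [Preorder P] : Prop :=
  ∀ A : Set P, A.Pairwise (fun p q => ¬ Compat p q) → A.Countable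

theorem CCC.exists_predense (h : CCC P) (W : Set P) :
    ∃ W₀ ⊆ W, W₀.Countable ∧ ∀ p ∈ W, ∃ w ∈ W₀, Compat p w := by
  obtain ⟨A, hA⟩ := zorn_subset {A | A ⊆ W ∧ A.Pairwise (fun p q => ¬ Compat p q)} (by
    intro c hc hchain
    refine ⟨⋃₀ c, ⟨sUnion_subset fun A hA => (hc hA).1, ?_⟩, fun A hA => subset_sUnion_of_mem hA⟩
    rintro p ⟨A, hA, hp⟩ q ⟨B, hB, hq⟩ hpq
    rcases hchain.total hA hB with h' | h'
    · exact (hc hB).2 (h' hp) hq hpq
    · exact (hc hA).2 hp (h' hq) hpq)
  refine ⟨A, hA.prop.1, h A hA.prop.2, fun p hp => ?_⟩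
  by_contra hc
  push Not at hc
  have hmem : insert p A ∈ {A | A ⊆ W ∧ A.Pairwise (fun p q => ¬ Compat p q)} :=
    ⟨insert_subset hp hA.prop.1, hA.prop.2.insert fun q hq _ =>
      ⟨hc q hq, fun h' => hc q hq h'.symm⟩⟩
  have := hA.eq_of_subset hmem (subset_insert _ _)
  exact hc p (this ▸ mem_insert _ _) ⟨p, le_rfl, le_rfl⟩

/-- Countably many possible values. -/
theorem CCC.countable_values {T : Type*} (h : CCC P) (V : P → T → Prop)
    (hm : ∀ p q t, V p t → q ≤ p → V q t) (hu : ∀ p t t', V p t → V p t' → t = t') :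
    {t | ∃ p, V p t}.Countable := by
  obtain ⟨W₀, hW, hc, hpre⟩ := h.exists_predense {p | ∃ t, V p t}
  have : {t | ∃ p, V p t} ⊆ ⋃ w ∈ W₀, {t | V w t} := by
    rintro t ⟨p, hp⟩
    obtain ⟨w, hw, r, h1, h2⟩ := hpre p ⟨t, hp⟩
    obtain ⟨t', ht'⟩ := hW hw
    have := hu r t t' (hm _ _ _ hp h1) (hm _ _ _ ht' h2)
    exact mem_biUnion hw (this ▸ ht')
  refine Set.Countable.mono this (hc.biUnion fun w _ => Set.Subsingleton.countable ?_)
  exact fun t ht t' ht' => hu w t t' ht ht'

end

/-- Cohen conditions: finite functions from `I` to `Bool`. -/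
structure Cond (I : Type) where
  f : I → Option Bool
  fin : {i | f i ≠ none}.Finite

namespace Cond

variable {I : Type}

instance : Preorder (Cond I) where
  le q p := ∀ i b, p.f i = some b → q.f i = some b
  le_refl _ _ _ h := h
  le_trans _ _ _ h1 h2 i b h := h1 i b (h2 i b h)

theorem le_def {p q : Cond I} : q ≤ p ↔ ∀ i b, p.f i = some b → q.f i = some b := Iff.rfl

instance : Inhabited (Cond I) := ⟨⟨fun _ => none, by simp⟩⟩

/-- The union of two conditions, the first one having priority. -/
def union (p q : Cond I) : Cond I :=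
  ⟨fun i => (p.f i).or (q.f i), (p.fin.union q.fin).subset fun i hi => by
    simp only [ne_eq, mem_ofPred_eq, Option.or_eq_none_iff, not_and_or] at hi
    exact hi⟩

theorem union_le_left (p q : Cond I) : p.union q ≤ p := fun i b h => by simp [union, h]

theorem union_le_right {p q : Cond I} (h : ∀ i b b', p.f i = some b → q.f i = some b' → b = b') :
    p.union q ≤ q := fun i b hb => by
  cases hp : p.f i with
  | none => simp [union, hp, hb]
  | some b' => simp [union, hp, h i b' b hp hb]

theorem compat_iff {p q : Cond I} :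
    Compat p q ↔ ∀ i b b', p.f i = some b → q.f i = some b' → b = b' := by
  constructor
  · rintro ⟨r, h1, h2⟩ i b b' hb hb'
    have := (h1 i b hb).symm.trans (h2 i b' hb')
    exact Option.some_injective _ this
  · exact fun h => ⟨_, union_le_left p q, union_le_right h⟩

open Classical in
/-- Restriction of a condition. -/
noncomputable def res (p : Cond I) (S : Set I) : Cond I :=
  ⟨fun i => if i ∈ S then p.f i else none, p.fin.subset fun i hi => by
    simp only [ne_eq, mem_ofPred_eq, ite_eq_right_iff, not_forall] at hi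
    exact hi.2⟩

theorem le_res (p : Cond I) (S : Set I) : p ≤ p.res S := fun i b h => by
  simp only [res] at h
  split_ifs at h
  exact h

theorem res_congr {p q : Cond I} {S : Set I} (h : ∀ i ∈ S, p.f i = q.f i) :
    p.res S = q.res S := by
  simp only [res, mk.injEq]
  funext i
  split_ifs with hi
  · exact h i hi
  · rfl

open Classical in
/-- Setting one value. -/
noncomputable def set (p : Cond I) (i : I) (b : Bool) : Cond I :=
  ⟨Function.update p.f i (some b), (p.fin.insert i).subset fun j hj => by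
    by_cases h : j = i
    · exact Or.inl h
    · refine Or.inr ?_
      simpa [Function.update_of_ne h] using hj⟩

theorem set_self (p : Cond I) (i : I) (b : Bool) : (p.set i b).f i = some b := by
  simp [set]

theorem set_of_ne (p : Cond I) {i j : I} (h : j ≠ i) (b : Bool) : (p.set i b).f j = p.f j := by
  classical
  simp only [set]
  exact @Function.update_of_ne _ _ (Classical.propDecidable <| · = ·) _ _ h _ _

theorem set_le {p : Cond I} {i : I} {b : Bool} (h : ∀ b', p.f i = some b' → b' = b) :
    p.set i b ≤ p := fun j b' hj => by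
  by_cases hji : j = i
  · subst hji
    rw [set_self, h b' hj]
  · rw [set_of_ne p hji, hj]

theorem exists_le_some (p : Cond I) (i : I) : ∃ q ≤ p, ∃ b, q.f i = some b := by
  cases h : p.f i with
  | none => exact ⟨p.set i true, set_le (by simp [h]), true, set_self _ _ _⟩
  | some b => exact ⟨p, le_rfl, b, h⟩

theorem exists_le_not {p : Cond I} {i : I} {b : Bool} (h : p.f i ≠ some b) :
    ∃ q ≤ p, q.f i = some (!b) :=
  ⟨p.set i (!b), set_le fun b' hb' => by
    cases b <;> cases b' <;> simp_all, set_self _ _ _⟩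

theorem finite_antichain (n : ℕ) : ∀ (F : Set I) (A : Set (Cond I)),
    (∀ p ∈ A, ({i | p.f i ≠ none} \ F).ncard ≤ n) →
    A.Pairwise (fun p q => ∃ i ∉ F, ∃ b, p.f i = some b ∧ q.f i = some (!b)) → A.Finite := by
  induction n with
  | zero =>
    intro F A h1 h2
    refine Set.Subsingleton.finite fun p hp q hq => ?_
    by_contra hpq
    obtain ⟨i, hi, b, hb, -⟩ := h2 hp hq hpq
    have := (ncard_eq_zero (p.fin.sdiff)).1 (Nat.le_zero.1 (h1 p hp))
    have hmem : i ∈ {i | p.f i ≠ none} \ F := ⟨by simp [hb], hi⟩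
    rw [this] at hmem
    exact hmem
  | succ n ih =>
    intro F A h1 h2
    rcases A.eq_empty_or_nonempty with rfl | ⟨p, hp⟩
    · exact finite_empty
    have hsub : A ⊆ insert p (⋃ i ∈ {i | p.f i ≠ none} \ F, ⋃ b : Bool,
        {q | q ∈ A ∧ q.f i = some b}) := by
      intro q hq
      by_cases hqp : p = q
      · exact Or.inl hqp.symm
      · obtain ⟨i, hi, b, hb, hb'⟩ := h2 hp hq hqp
        exact Or.inr (mem_biUnion (x := i) ⟨by simp [hb], hi⟩ (mem_iUnion.2 ⟨!b, hq, hb'⟩))
    refine Finite.subset (Finite.insert p (Finite.biUnion p.fin.sdiff fun i hi =>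
      finite_iUnion fun b => ih (insert i F) _ (fun q hq => ?_) ?_)) hsub
    · have h3 := h1 q hq.1
      have hmem : i ∈ {i | q.f i ≠ none} \ F := ⟨by simp [hq.2], hi.2⟩
      have h4 : {i | q.f i ≠ none} \ insert i F = ({i | q.f i ≠ none} \ F) \ {i} := by
        ext j; simp only [mem_sdiff, mem_insert_iff, mem_singleton_iff]; tauto
      rw [h4]
      have := ncard_sdiff_singleton_lt_of_mem hmem q.fin.sdiff
      omega
    · intro q hq q' hq' hne
      obtain ⟨j, hj, c, hc, hc'⟩ := h2 hq.1 hq'.1 hne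
      refine ⟨j, ?_, c, hc, hc'⟩
      rintro (rfl | h)
      · rw [hq.2] at hc
        rw [hq'.2] at hc'
        cases b <;> cases c <;> simp_all
      · exact hj h

theorem ccc (I : Type) : CCC (Cond I) := by
  intro A hA
  have : A = ⋃ n : ℕ, {p | p ∈ A ∧ ({i | p.f i ≠ none} \ ∅).ncard ≤ n} := by
    ext p
    simp only [mem_iUnion, mem_ofPred_eq]
    exact ⟨fun h => ⟨_, h, le_rfl⟩, fun ⟨_, h, _⟩ => h⟩
  rw [this]
  refine countable_iUnion fun n => (finite_antichain n ∅ _ (fun p hp => hp.2) ?_).countable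
  intro p hp q hq hne
  have : ¬ Compat p q := hA hp.1 hq.1 hne
  rw [compat_iff] at this
  push Not at this
  obtain ⟨i, b, b', h1, h2, h3⟩ := this
  refine ⟨i, notMem_empty _, b, h1, ?_⟩
  rw [h2]
  cases b <;> cases b' <;> first | rfl | exact absurd rfl h3

/-- Every regular set of Cohen conditions has a countable support. -/
theorem exists_support (W : Cond I → Prop) (hm : ∀ p q, W p → q ≤ p → W q)
    (hr : ∀ p, Dn W p → W p) :
    ∃ S : Set I, S.Countable ∧ ∀ p q : Cond I, (∀ i ∈ S, p.f i = q.f i) → W p → W q := by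
  obtain ⟨W₁, hW, hc, hpre⟩ := (ccc I).exists_predense {r | Neg W r}
  refine ⟨⋃ w ∈ W₁, {i | w.f i ≠ none}, hc.biUnion fun w _ => w.fin.countable,
    fun p q hpq hp => ?_⟩
  by_contra hq
  obtain ⟨r, hr', hn⟩ := exists_neg_of_not (hr q) hq
  obtain ⟨w, hw, s, h1, h2⟩ := hpre r hn
  have : Compat p w := by
    rw [compat_iff]
    intro i b b' hb hb'
    have hi : i ∈ ⋃ w ∈ W₁, {i | w.f i ≠ none} := mem_biUnion hw (by simp [hb'])
    rw [hpq i hi] at hb
    have := (h1 i b (hr' i b hb)).symm.trans (h2 i b' hb')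
    exact Option.some_injective _ this
  obtain ⟨t, h3, h4⟩ := this
  exact hW hw t h4 (hm p t hp h3)

end Cond

end Pool.Agent.Lib.Common.Forcing
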